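import Pool.Agent.H211.HY.Stm2
import Pool.Graph.R_seed8.W746.LD.Koebe
import Pool.Graph.R_seed8.Helper114.MontelSol

/-!
# Project HY: blowing up at a conical Lebesgue point (`t_DENS`)
-/

set_option autoImplicit false

open Topology Filter Metric Set MeasureTheory
open scoped ENNReal

namespace Pool.Agent.H221.HY211

section blowup

open Pool.Agent.W746.LD

theorem det_smulRight (z : ℂ) :
    |((ContinuousLinearMap.smulRight (1 : ℂ →L[ℂ] ℂ) z).restrictScalars ℝ).det| = ‖z‖ ^ 2 := by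
  have h : (((ContinuousLinearMap.smulRight (1 : ℂ →L[ℂ] ℂ) z).restrictScalars ℝ : ℂ →L[ℝ] ℂ) :
      ℂ →ₗ[ℝ] ℂ) = Algebra.lmul ℝ ℂ z := by
    ext x
    simp [mul_comm]
  have h2 : ((ContinuousLinearMap.smulRight (1 : ℂ →L[ℂ] ℂ) z).restrictScalars ℝ).det =
      Algebra.norm ℝ z := by
    rw [Algebra.norm_apply, ← h]
  rw [h2, Algebra.norm_complex_apply, Complex.normSq_eq_norm_sq, abs_of_nonneg (by positivity)]

/-- change of variables for univalent functions -/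
theorem cov {φ : ℂ → ℂ} {a : ℂ} {r : ℝ} (h : Univ φ a r) {s : Set ℂ} (hs : MeasurableSet s)
    (hsr : s ⊆ ball a r) (f : ℂ → ℝ≥0∞) :
    ∫⁻ w in s, ENNReal.ofReal (‖deriv φ w‖ ^ 2) * f (φ w) = ∫⁻ z in φ '' s, f z := by
  have h1 := lintegral_image_eq_lintegral_abs_det_fderiv_mul volume hs
    (f' := fun w => (ContinuousLinearMap.smulRight (1 : ℂ →L[ℂ] ℂ) (deriv φ w)).restrictScalars ℝ)
    (fun w hw => ((((h.1.differentiableAt (isOpen_ball.mem_nhds (hsr hw))).hasDerivAt.hasFDerivAt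
      ).restrictScalars ℝ).hasFDerivWithinAt)) (h.2.mono hsr) f
  rw [h1]
  refine lintegral_congr fun w => ?_
  rw [det_smulRight]

/-- the derivative of a univalent function does not vanish -/
theorem univ_deriv {φ : ℂ → ℂ} {a : ℂ} {r : ℝ} (h : Univ φ a r) {w : ℂ} (hw : w ∈ ball a r) :
    deriv φ w ≠ 0 := by
  obtain ⟨C0, c0, K⟩ := exists_KC
  intro h0
  obtain ⟨s, hs, hsub⟩ := Metric.isOpen_iff.1 isOpen_ball w hw
  have hu : Univ φ w s := h.mono hsub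
  have h1 : ‖(w + ((s / 4 : ℝ) : ℂ)) - w‖ ≤ s / 4 := by
    rw [add_sub_cancel_left, Complex.norm_real, Real.norm_of_nonneg (by positivity)]
  have h2 := K.lip hs hu h1
  rw [h0, norm_zero, mul_zero, zero_mul] at h2
  have h3 : φ (w + ((s / 4 : ℝ) : ℂ)) = φ w := by
    rw [← sub_eq_zero, ← norm_le_zero_iff]
    exact h2
  have h4 : w + ((s / 4 : ℝ) : ℂ) ∈ ball w s := by
    rw [mem_ball, dist_eq_norm]
    linarith
  have h5 := hu.2 h4 (mem_ball_self hs) h3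
  have h6 : ((s / 4 : ℝ) : ℂ) = 0 := by linear_combination h5
  rw [Complex.ofReal_eq_zero] at h6
  linarith

theorem meas_piece {φ : ℂ → ℂ} {a : ℂ} {r : ℝ} (h : DifferentiableOn ℂ φ (ball a r)) :
    Measurable ((ball a r).indicator φ) := by
  classical
  rw [← piecewise_eq_indicator]
  exact h.continuousOn.measurable_piecewise continuousOn_const measurableSet_ball

/-- preimages of null sets under univalent functions are null -/
theorem null_pre {φ : ℂ → ℂ} {a : ℂ} {r : ℝ} (h : Univ φ a r) {Z : Set ℂ} (hZ : volume Z = 0) :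
    ∀ᵐ w : ℂ, w ∈ ball a r → φ w ∉ Z := by
  set Z' := toMeasurable volume Z with hZ'
  have hm : MeasurableSet Z' := measurableSet_toMeasurable _ _
  have hv : volume Z' = 0 := by rw [hZ', measure_toMeasurable, hZ]
  set s : Set ℂ := ball a r ∩ ((ball a r).indicator φ) ⁻¹' Z' with hs
  have hsm : MeasurableSet s := measurableSet_ball.inter (meas_piece h.1 hm)
  have h1 := cov h hsm inter_subset_left (fun _ => 1)
  have h2 : φ '' s ⊆ Z' := by
    rintro _ ⟨w, ⟨hw1, hw2⟩, rfl⟩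
    have hw3 : (ball a r).indicator φ w ∈ Z' := hw2
    rwa [indicator_of_mem hw1] at hw3
  have h3 : ∫⁻ z in φ '' s, (1 : ℝ≥0∞) = 0 := by
    rw [setLIntegral_one]
    exact measure_mono_null h2 hv
  rw [h3] at h1
  have h4 : volume s = 0 := by
    have hmeas : Measurable fun w => ENNReal.ofReal (‖deriv φ w‖ ^ 2) * (1 : ℝ≥0∞) :=
      (((measurable_deriv φ).norm.pow_const 2).ennreal_ofReal).mul_const _
    have h5 := (lintegral_eq_zero_iff hmeas).1 h1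
    rw [Filter.EventuallyEq, ae_restrict_iff' hsm] at h5
    have h6 : ∀ᵐ w : ℂ, w ∉ s := by
      filter_upwards [h5] with w hw hws
      have h7 := hw hws
      have h8 : 0 < ‖deriv φ w‖ ^ 2 := by
        have := univ_deriv h hws.1
        positivity
      simp only [mul_one, Pi.zero_apply, ENNReal.ofReal_eq_zero] at h7
      linarith
    rw [ae_iff] at h6
    simpa using h6
  have h9 : ∀ᵐ w : ℂ, w ∉ s := by
    rw [ae_iff]
    simpa using h4
  filter_upwards [h9] with w hw hwb hwZ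
  refine hw ⟨hwb, ?_⟩
  change (ball a r).indicator φ w ∈ Z'
  rw [indicator_of_mem hwb]
  exact subset_toMeasurable _ _ hwZ

/-- almost every point is a Lebesgue point -/
theorem leb {H : ℂ → ℂ} (hH : Measurable H) (hi : ∫⁻ z : ℂ, ‖H z‖ₑ ≠ ⊤) :
    ∀ᵐ p : ℂ, ∀ η > (0 : ℝ), ∃ δ > (0 : ℝ), ∀ r : ℝ, 0 < r → r < δ →
      ∫⁻ z in closedBall p r, ‖H z - H p‖ₑ ≤ ENNReal.ofReal (η * r ^ 2) := by
  have hint : Integrable H := ⟨hH.aestronglyMeasurable, lt_top_iff_ne_top.2 hi⟩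
  have h1 := VitaliFamily.ae_tendsto_lintegral_enorm_sub_div (Besicovitch.vitaliFamily (volume : Measure ℂ))
    hint.locallyIntegrable
  filter_upwards [h1] with p hp η hη
  have h2 := hp.comp (Besicovitch.tendsto_filterAt (volume : Measure ℂ) p)
  have hc : 0 < ENNReal.ofReal (η / Real.pi) := by
    rw [ENNReal.ofReal_pos]
    have := Real.pi_pos
    positivity
  have h3 := h2.eventually (ge_mem_nhds hc)
  obtain ⟨δ, hδ, h4⟩ := mem_nhdsGT_iff_exists_Ioo_subset.1 h3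
  refine ⟨δ, hδ, fun r hr hrδ => ?_⟩
  have h5 : (∫⁻ z in closedBall p r, ‖H z - H p‖ₑ) / volume (closedBall p r) ≤
      ENNReal.ofReal (η / Real.pi) := h4 ⟨hr, hrδ⟩
  have hv : volume (closedBall p r) = ENNReal.ofReal (Real.pi * r ^ 2) := by
    rw [Complex.volume_closedBall, ← ENNReal.ofReal_pow hr.le, mul_comm,
      ENNReal.ofReal_mul Real.pi_pos.le]
    congr 1
    rw [← NNReal.coe_real_pi, ENNReal.ofReal_coe_nnreal]
  have hv0 : volume (closedBall p r) ≠ 0 := by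
    rw [hv]
    have := Real.pi_pos
    have : 0 < Real.pi * r ^ 2 := by positivity
    exact (ENNReal.ofReal_pos.2 this).ne'
  have hvt : volume (closedBall p r) ≠ ⊤ := by
    rw [hv]
    exact ENNReal.ofReal_ne_top
  rw [ENNReal.div_le_iff hv0 hvt, hv, ← ENNReal.ofReal_mul (by
    have := Real.pi_pos
    positivity)] at h5
  have h6 : η / Real.pi * (Real.pi * r ^ 2) = η * r ^ 2 := by
    have := Real.pi_ne_zero
    field_simp
  rwa [h6] at h5

theorem blow {H : ℂ → ℂ} (hH : Measurable H) {p : ℂ} (hp : H p ≠ 0)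
    (hleb : ∀ η > (0 : ℝ), ∃ δ > (0 : ℝ), ∀ r : ℝ, 0 < r → r < δ →
      ∫⁻ z in closedBall p r, ‖H z - H p‖ₑ ≤ ENNReal.ofReal (η * r ^ 2))
    {ρ L : ℝ} (hρ : 0 < ρ)
    (hex : ∀ ε > (0 : ℝ), ∃ (y : ℂ) (G : ℂ → ℂ), ‖y‖ ≤ L ∧ Univ G y ρ ∧ G y = p ∧
      (∀ w ∈ ball y ρ, ‖G w - p‖ < ε) ∧
      ∀ᵐ w : ℂ, w ∈ ball y ρ → ∃ a : ℝ, 0 ≤ a ∧ H (G w) * deriv G w ^ 2 = (a : ℂ) * H w) :
    ∃ (y : ℂ) (R : ℝ) (k : ℂ → ℂ), 0 < R ∧ DifferentiableOn ℂ k (ball y R) ∧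
      (∀ w ∈ ball y R, k w ≠ 0) ∧ ∀ᵐ w : ℂ, w ∈ ball y R → ∃ t : ℝ, 0 < t ∧ H w = (t : ℂ) * k w := by
  classical
  obtain ⟨C0, c0, K⟩ := exists_KC
  have hC1 : 1 ≤ C0 := K.one_le
  have hC0 : 0 < C0 := lt_of_lt_of_le one_pos hC1
  -- the choices
  have hstep : ∀ n : ℕ, ∃ (y : ℂ) (G : ℂ → ℂ), ‖y‖ ≤ L ∧ Univ G y ρ ∧ G y = p ∧
      (∀ᵐ w : ℂ, w ∈ ball y ρ → ∃ a : ℝ, 0 ≤ a ∧ H (G w) * deriv G w ^ 2 = (a : ℂ) * H w) ∧
      ∫⁻ w in ball y (ρ / 4), ‖(H (G w) - H p) * deriv G w ^ 2 / (‖deriv G y‖ : ℂ) ^ 2‖ₑ ≤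
        ENNReal.ofReal ((1 / 2 : ℝ) ^ n) := by
    intro n
    obtain ⟨δ, hδ, hδ2⟩ := hleb ((1 / 2 : ℝ) ^ n / (C0 * ρ) ^ 2) (by positivity)
    obtain ⟨y, G, hy, hu, hGy, hG, hae⟩ := hex (δ / (2 * C0)) (by positivity)
    refine ⟨y, G, hy, hu, hGy, hae, ?_⟩
    set r : ℝ := ‖deriv G y‖ with hr
    have hr0 : 0 < r := norm_pos_iff.2 (univ_deriv hu (mem_ball_self hρ))
    -- size of `r`
    have hrle : r ≤ δ / (2 * C0) / ρ := by
      have hmaps : MapsTo G (ball y ρ) (closedBall (G y) (δ / (2 * C0))) := by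
        intro w hw
        rw [mem_closedBall, dist_eq_norm, hGy]
        exact (hG w hw).le
      exact Complex.norm_deriv_le_div_of_mapsTo_ball hu.1 hmaps hρ
    have hrδ : C0 * ρ * r < δ := by
      have h1 : C0 * ρ * r ≤ C0 * ρ * (δ / (2 * C0) / ρ) := by gcongr
      have h2 : C0 * ρ * (δ / (2 * C0) / ρ) = δ / 2 := by field_simp
      linarith
    have hsub : ball y (ρ / 4) ⊆ ball y ρ := ball_subset_ball (by linarith)
    have himg : G '' ball y (ρ / 4) ⊆ closedBall p (C0 * ρ * r) := by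
      rintro _ ⟨w, hw, rfl⟩
      rw [mem_ball, dist_eq_norm] at hw
      have h1 := K.lip hρ hu hw.le
      rw [hGy] at h1
      rw [mem_closedBall, dist_eq_norm]
      refine h1.trans ?_
      have h2 : C0 * r * ‖w - y‖ ≤ C0 * r * ρ := by
        have : ‖w - y‖ ≤ ρ := by linarith
        gcongr
      have h3 : C0 * ‖deriv G y‖ * ‖w - y‖ = C0 * r * ‖w - y‖ := by rw [hr]
      rw [h3]
      linarith [h2]
    have h3 := hδ2 (C0 * ρ * r) (by positivity) hrδ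
    have h4 : ∫⁻ w in ball y (ρ / 4), ENNReal.ofReal (‖deriv G w‖ ^ 2) * ‖H (G w) - H p‖ₑ ≤
        ENNReal.ofReal ((1 / 2 : ℝ) ^ n / (C0 * ρ) ^ 2 * (C0 * ρ * r) ^ 2) := by
      rw [cov hu measurableSet_ball hsub (fun z => ‖H z - H p‖ₑ)]
      exact (lintegral_mono_set himg).trans h3
    have h5 : (1 / 2 : ℝ) ^ n / (C0 * ρ) ^ 2 * (C0 * ρ * r) ^ 2 = (1 / 2 : ℝ) ^ n * r ^ 2 := by
      field_simp
    rw [h5] at h4
    have h6 : ∀ w, ‖(H (G w) - H p) * deriv G w ^ 2 / (r : ℂ) ^ 2‖ₑ =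
        ENNReal.ofReal ((r ^ 2)⁻¹) *
          (ENNReal.ofReal (‖deriv G w‖ ^ 2) * ‖H (G w) - H p‖ₑ) := by
      intro w
      have h7 : ‖(H (G w) - H p) * deriv G w ^ 2 / (r : ℂ) ^ 2‖ =
          (r ^ 2)⁻¹ * (‖deriv G w‖ ^ 2 * ‖H (G w) - H p‖) := by
        rw [norm_div, norm_mul, norm_pow, norm_pow, Complex.norm_real,
          Real.norm_of_nonneg hr0.le]
        field_simp
      rw [← ofReal_norm, h7, ENNReal.ofReal_mul (by positivity),
        ENNReal.ofReal_mul (by positivity), ofReal_norm]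
    simp_rw [h6]
    rw [lintegral_const_mul' _ _ ENNReal.ofReal_ne_top]
    calc ENNReal.ofReal ((r ^ 2)⁻¹) *
        ∫⁻ w in ball y (ρ / 4), ENNReal.ofReal (‖deriv G w‖ ^ 2) * ‖H (G w) - H p‖ₑ
        ≤ ENNReal.ofReal ((r ^ 2)⁻¹) * ENNReal.ofReal ((1 / 2 : ℝ) ^ n * r ^ 2) := by gcongr
      _ = ENNReal.ofReal ((1 / 2 : ℝ) ^ n) := by
        rw [← ENNReal.ofReal_mul (by positivity)]
        congr 1
        field_simp
  choose y G hy hu hGy hae hint using hstep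
  set E : ℕ → ℂ → ℂ := fun n w =>
    (H (G n w) - H p) * deriv (G n) w ^ 2 / (‖deriv (G n) (y n)‖ : ℂ) ^ 2 with hE
  set e : ℕ → ℂ → ℝ≥0∞ := fun n => (ball (y n) (ρ / 4)).indicator fun w => ‖E n w‖ₑ with he
  have hem : ∀ n, AEMeasurable (e n) := by
    intro n
    rw [he]
    refine (aemeasurable_indicator_iff measurableSet_ball).2 ?_
    have h1 : AEMeasurable (G n) (volume.restrict (ball (y n) (ρ / 4))) :=
      ((hu n).1.continuousOn.mono (ball_subset_ball (by linarith))).aemeasurable measurableSet_ball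
    have h2 : AEMeasurable (fun w => H (G n w)) (volume.restrict (ball (y n) (ρ / 4))) :=
      hH.comp_aemeasurable h1
    have h3 : AEMeasurable (fun w => deriv (G n) w) (volume.restrict (ball (y n) (ρ / 4))) :=
      (measurable_deriv (G n)).aemeasurable
    exact (((h2.sub_const _).mul (h3.pow_const 2)).div_const _).enorm
  have hei : ∀ n, ∫⁻ w, e n w ≤ ENNReal.ofReal ((1 / 2 : ℝ) ^ n) := by
    intro n
    rw [he]
    change ∫⁻ w, (ball (y n) (ρ / 4)).indicator (fun w => ‖E n w‖ₑ) w ≤ _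
    rw [lintegral_indicator measurableSet_ball]
    exact hint n
  have hsum : ∀ᵐ w : ℂ, ∑' n, e n w < ⊤ := by
    refine ae_lt_top' (AEMeasurable.tsum hem) ?_
    rw [lintegral_tsum hem]
    refine ne_top_of_le_ne_top ?_ (ENNReal.tsum_le_tsum hei)
    rw [← ENNReal.ofReal_tsum_of_nonneg (fun n => by positivity)
      (summable_geometric_of_lt_one (by norm_num) (by norm_num))]
    exact ENNReal.ofReal_ne_top
  have htend : ∀ᵐ w : ℂ, Tendsto (fun n => e n w) atTop (𝓝 0) := by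
    filter_upwards [hsum] with w hw
    exact ENNReal.tendsto_atTop_zero_of_tsum_ne_top hw.ne
  -- the ultrafilter
  set 𝒰 : Ultrafilter ℕ := hyperfilter ℕ with h𝒰
  have hU : (𝒰 : Filter ℕ) ≤ atTop := Nat.hyperfilter_le_atTop
  obtain ⟨ys, -, hys⟩ : ∃ ys ∈ closedBall (0 : ℂ) L, ((𝒰.map y : Ultrafilter ℂ) : Filter ℂ) ≤ 𝓝 ys := by
    refine (isCompact_closedBall (0 : ℂ) L).ultrafilter_le_nhds _ ?_
    rw [le_principal_iff, Ultrafilter.coe_map, Filter.mem_map]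
    refine Filter.mem_of_superset Filter.univ_mem fun n _ => ?_
    change y n ∈ closedBall 0 L
    rw [mem_closedBall_zero_iff]
    exact hy n
  have hyt : Tendsto y 𝒰 (𝓝 ys) := hys
  set W : Set ℂ := ball ys (ρ / 8) with hW
  have hWB : ∀ᶠ n in (𝒰 : Filter ℕ), W ⊆ ball (y n) (ρ / 4) := by
    have h1 := hyt.eventually (ball_mem_nhds ys (show 0 < ρ / 8 by linarith))
    filter_upwards [h1] with n hn w hw
    rw [mem_ball]
    rw [hW, mem_ball] at hw
    have := dist_triangle w ys (y n)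
    rw [dist_comm ys (y n)] at this
    linarith
  set F : ℕ → ℂ → ℂ := fun n w => if W ⊆ ball (y n) (ρ / 4) then
    H p * deriv (G n) w ^ 2 / (‖deriv (G n) (y n)‖ : ℂ) ^ 2 else H p with hF
  have hrn : ∀ n, 0 < ‖deriv (G n) (y n)‖ := fun n =>
    norm_pos_iff.2 (univ_deriv (hu n) (mem_ball_self hρ))
  have hFd : ∀ n, DifferentiableOn ℂ (F n) W := by
    intro n
    by_cases hn : W ⊆ ball (y n) (ρ / 4)
    · have h1 : DifferentiableOn ℂ (deriv (G n)) W :=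
        ((hu n).1.deriv isOpen_ball).mono (hn.trans (ball_subset_ball (by linarith)))
      have h2 : F n = fun w => H p * deriv (G n) w ^ 2 / (‖deriv (G n) (y n)‖ : ℂ) ^ 2 := by
        funext w
        rw [hF]
        exact if_pos hn
      rw [h2]
      exact ((h1.pow 2).const_mul _).div_const _
    · have h2 : F n = fun _ => H p := by
        funext w
        rw [hF]
        exact if_neg hn
      rw [h2]
      exact differentiableOn_const _
  have hFn : ∀ n, ∀ w ∈ W, ‖F n w‖ ≤ ‖H p‖ * C0 ^ 2 ∧ ‖H p‖ / C0 ^ 2 ≤ ‖F n w‖ := by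
    intro n w hw
    have hH0 : 0 ≤ ‖H p‖ := norm_nonneg _
    have hC2 : 1 ≤ C0 ^ 2 := one_le_pow₀ hC1
    by_cases hn : W ⊆ ball (y n) (ρ / 4)
    · have h2 : F n w = H p * deriv (G n) w ^ 2 / (‖deriv (G n) (y n)‖ : ℂ) ^ 2 := by
        rw [hF]
        exact if_pos hn
      have h3 := hn hw
      rw [mem_ball, dist_eq_norm] at h3
      obtain ⟨h4, h5⟩ := K.kdist (G n) (y n) ρ hρ (hu n) w h3.le
      have hr := hrn n
      set r := ‖deriv (G n) (y n)‖ with hr'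
      have h6 : ‖F n w‖ = ‖H p‖ * (‖deriv (G n) w‖ ^ 2 / r ^ 2) := by
        rw [h2, norm_div, norm_mul, norm_pow, norm_pow, Complex.norm_real,
          Real.norm_of_nonneg hr.le]
        ring
      rw [h6]
      constructor
      · refine mul_le_mul_of_nonneg_left ?_ hH0
        rw [div_le_iff₀ (by positivity), ← mul_pow]
        exact pow_le_pow_left₀ (norm_nonneg _) h4 2
      · rw [div_eq_mul_inv]
        refine mul_le_mul_of_nonneg_left ?_ hH0
        rw [inv_le_iff_one_le_mul₀ (by positivity), ← mul_div_right_comm, le_div_iff₀ (by positivity),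
          one_mul, ← mul_pow, mul_comm (‖deriv (G n) w‖)]
        exact pow_le_pow_left₀ hr.le h5 2
    · have h2 : F n w = H p := by
        rw [hF]
        exact if_neg hn
      rw [h2]
      constructor
      · nlinarith
      · rw [div_le_iff₀ (by positivity)]
        nlinarith
  obtain ⟨Φ, hΦd, hΦ⟩ := Pool.Agent.Helper114.Montel.montel isOpen_ball F hFd _
    (fun n w hw => (hFn n w hw).1) 𝒰
  have hpt : ∀ w ∈ W, Tendsto (fun n => F n w) 𝒰 (𝓝 (Φ w)) := fun w hw => hΦ.tendsto_at hw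
  have hΦ0 : ∀ w ∈ W, Φ w ≠ 0 := by
    intro w hw h0
    have h1 : Tendsto (fun n => ‖F n w‖) 𝒰 (𝓝 ‖Φ w‖) := (hpt w hw).norm
    have h2 : ‖H p‖ / C0 ^ 2 ≤ ‖Φ w‖ :=
      ge_of_tendsto' h1 fun n => (hFn n w hw).2
    rw [h0, norm_zero] at h2
    have h3 : 0 < ‖H p‖ / C0 ^ 2 := by
      have := norm_pos_iff.2 hp
      positivity
    linarith
  refine ⟨ys, ρ / 8, Φ, by linarith, hΦd, hΦ0, ?_⟩
  have hae' : ∀ᵐ w : ℂ, ∀ n, w ∈ ball (y n) ρ →
      ∃ a : ℝ, 0 ≤ a ∧ H (G n w) * deriv (G n) w ^ 2 = (a : ℂ) * H w := ae_all_iff.2 hae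
  filter_upwards [hae', htend] with w hw1 hw2 hwW
  -- the numbers `a n`
  have hch : ∀ n, ∃ a : ℝ, 0 ≤ a ∧ (w ∈ ball (y n) ρ →
      H (G n w) * deriv (G n) w ^ 2 = (a : ℂ) * H w) := by
    intro n
    by_cases h : w ∈ ball (y n) ρ
    · obtain ⟨a, ha, ha'⟩ := hw1 n h
      exact ⟨a, ha, fun _ => ha'⟩
    · exact ⟨0, le_rfl, fun h' => absurd h' h⟩
  choose a ha0 ha using hch
  set b : ℕ → ℝ := fun n => a n / ‖deriv (G n) (y n)‖ ^ 2 with hb
  have hb0 : ∀ n, 0 ≤ b n := fun n => div_nonneg (ha0 n) (by positivity)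
  -- convergence
  have hE0 : Tendsto (fun n => (b n : ℂ) * H w - F n w) 𝒰 (𝓝 0) := by
    rw [tendsto_zero_iff_norm_tendsto_zero]
    have h1 : Tendsto (fun n => (e n w).toReal) 𝒰 (𝓝 0) := by
      have h2 := (ENNReal.tendsto_toReal ENNReal.zero_ne_top).comp hw2
      rw [ENNReal.toReal_zero] at h2
      exact h2.mono_left hU
    refine h1.congr' ?_
    filter_upwards [hWB] with n hn
    have h3 : w ∈ ball (y n) (ρ / 4) := hn hwW
    have h4 : w ∈ ball (y n) ρ := ball_subset_ball (by linarith) h3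
    have h5 : e n w = ‖E n w‖ₑ := by
      rw [he]
      exact indicator_of_mem h3 _
    have h6 : F n w = H p * deriv (G n) w ^ 2 / (‖deriv (G n) (y n)‖ : ℂ) ^ 2 := by
      rw [hF]
      exact if_pos hn
    rw [h5, toReal_enorm]
    congr 1
    have h7 := ha n h4
    have h8 : (b n : ℂ) * H w = H (G n w) * deriv (G n) w ^ 2 / (‖deriv (G n) (y n)‖ : ℂ) ^ 2 := by
      rw [h7, hb]
      push_cast
      ring
    rw [h8, h6, hE]
    ring
  have hlim : Tendsto (fun n => (b n : ℂ) * H w) 𝒰 (𝓝 (Φ w)) := by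
    have h1 := hE0.add (hpt w hwW)
    simpa using h1
  have hHw : H w ≠ 0 := by
    intro h0
    rw [h0] at hlim
    simp only [mul_zero] at hlim
    exact hΦ0 w hwW (tendsto_nhds_unique hlim tendsto_const_nhds)
  have hlim2 : Tendsto (fun n => (b n : ℂ)) 𝒰 (𝓝 (Φ w / H w)) := by
    have h1 := hlim.div_const (H w)
    refine h1.congr fun n => ?_
    field_simp
  have hre : Tendsto (fun n => b n) 𝒰 (𝓝 (Φ w / H w).re) := by
    have h1 := (Complex.continuous_re.tendsto _).comp hlim2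
    exact h1
  have him : Tendsto (fun _ : ℕ => (0 : ℝ)) 𝒰 (𝓝 (Φ w / H w).im) := by
    have h1 := (Complex.continuous_im.tendsto _).comp hlim2
    exact h1
  have him0 : (Φ w / H w).im = 0 := (tendsto_nhds_unique him tendsto_const_nhds)
  have hre0 : 0 ≤ (Φ w / H w).re := ge_of_tendsto' hre hb0
  have hval : Φ w / H w = (((Φ w / H w).re : ℝ) : ℂ) := by
    apply Complex.ext
    · simp
    · simpa using him0
  have hre1 : 0 < (Φ w / H w).re := by
    refine lt_of_le_of_ne hre0 fun h => ?_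
    rw [← h] at hval
    rw [Complex.ofReal_zero, div_eq_zero_iff] at hval
    rcases hval with h1 | h1
    · exact hΦ0 w hwW h1
    · exact hHw h1
  refine ⟨((Φ w / H w).re)⁻¹, inv_pos.2 hre1, ?_⟩
  have h2 : Φ w = (((Φ w / H w).re : ℝ) : ℂ) * H w := by
    rw [← hval]
    field_simp
  have h3 : (((Φ w / H w).re : ℝ) : ℂ) ≠ 0 := Complex.ofReal_ne_zero.2 hre1.ne'
  generalize (Φ w / H w).re = t at h2 h3 ⊢
  rw [h2, Complex.ofReal_inv]
  field_simp

end blowup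

open Polynomial Pool.Agent.H790R3.RB Pool.Agent.H211.HY Pool.Agent.W746.LD

section hom
variable {d : ℕ} (x : CV d)

theorem hF_smul (t : ℂ) (p : ℂ × ℂ) : hF x (t • p) = t ^ d • hF x p := by
  have key : ∀ i : Fin 2, ∑ j : Fin (d + 1), x (i, j) * ((t • p).1 ^ (j : ℕ) * (t • p).2 ^ (d - (j : ℕ))) =
      t ^ d * ∑ j : Fin (d + 1), x (i, j) * (p.1 ^ (j : ℕ) * p.2 ^ (d - (j : ℕ))) := by
    intro i
    rw [Finset.mul_sum]
    refine Finset.sum_congr rfl fun j _ => ?_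
    have hj : (j : ℕ) ≤ d := by omega
    have h1 : t ^ d = t ^ (j : ℕ) * t ^ (d - (j : ℕ)) := by
      rw [← pow_add]
      congr 1
      omega
    rw [Prod.smul_fst, Prod.smul_snd, smul_eq_mul, smul_eq_mul, mul_pow, mul_pow, h1]
    ring
  exact Prod.ext (key 0) (key 1)

theorem iter_smul (n : ℕ) (t : ℂ) (p : ℂ × ℂ) :
    (hF x)^[n] (t • p) = t ^ d ^ n • (hF x)^[n] p := by
  induction n with
  | zero => rw [Function.iterate_zero, id, id, pow_zero, pow_one]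
  | succ n ih =>
    rw [Function.iterate_succ_apply', Function.iterate_succ_apply', ih, hF_smul, ← pow_mul,
      pow_succ]

theorem iter_ne {x : CV d} (hnd : ND x) (n : ℕ) {p : ℂ × ℂ} (hp : p ≠ 0) : (hF x)^[n] p ≠ 0 := by
  induction n with
  | zero => exact hp
  | succ n ih =>
    rw [Function.iterate_succ_apply']
    exact fun h => ih (hnd _ h)

theorem hF_pol (z : ℂ) : hF x (z, 1) = ((pol x 0).eval z, (pol x 1).eval z) := by
  have key : ∀ i : Fin 2, ∑ j : Fin (d + 1), x (i, j) * (z ^ (j : ℕ) * (1 : ℂ) ^ (d - (j : ℕ))) =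
      (pol x i).eval z := by
    intro i
    unfold pol
    rw [eval_finsetSum]
    refine Finset.sum_congr rfl fun j _ => ?_
    rw [eval_monomial, one_pow, mul_one]
  exact Prod.ext (key 0) (key 1)

theorem iter_pol (n : ℕ) : ∃ A B : ℂ[X], ∀ z : ℂ, (hF x)^[n] (z, 1) = (A.eval z, B.eval z) := by
  induction n with
  | zero => exact ⟨X, 1, fun z => by simp⟩
  | succ n ih =>
    obtain ⟨A, B, hAB⟩ := ih
    refine ⟨∑ j : Fin (d + 1), C (x (0, j)) * (A ^ (j : ℕ) * B ^ (d - (j : ℕ))),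
      ∑ j : Fin (d + 1), C (x (1, j)) * (A ^ (j : ℕ) * B ^ (d - (j : ℕ))), fun z => ?_⟩
    rw [Function.iterate_succ_apply', hAB, eval_finsetSum, eval_finsetSum]
    simp only [eval_mul, eval_C, eval_pow]
    rfl

theorem pf_iter (n : ℕ) {z : ℂ} (h : ∀ j ≤ n, ((hF x)^[j] (z, 1)).2 ≠ 0) :
    (pf x)^[n] z = ((hF x)^[n] (z, 1)).1 / ((hF x)^[n] (z, 1)).2 := by
  induction n with
  | zero => simp
  | succ n ih =>
    have h1 := ih fun j hj => h j (hj.trans (Nat.le_succ n))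
    have h2 := h n (Nat.le_succ n)
    rw [Function.iterate_succ_apply', h1, Function.iterate_succ_apply' (hF x)]
    set u := (hF x)^[n] (z, 1) with hu
    have h3 : u = u.2 • (u.1 / u.2, (1 : ℂ)) := by
      apply Prod.ext
      · rw [Prod.smul_fst, smul_eq_mul]
        field_simp
      · rw [Prod.smul_snd, smul_eq_mul, mul_one]
    have h4 : hF x u = u.2 ^ d • ((pol x 0).eval (u.1 / u.2), (pol x 1).eval (u.1 / u.2)) := by
      conv_lhs => rw [h3]
      rw [hF_smul, hF_pol]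
    rw [h4, Prod.smul_fst, Prod.smul_snd, smul_eq_mul, smul_eq_mul,
      mul_div_mul_left _ _ (pow_ne_zero d h2)]
    rfl

end hom

theorem cr_smul_left (s : ℂ) (p q : ℂ × ℂ) : cr (s • p) q = s * cr p q := by
  unfold cr
  rw [Prod.smul_fst, Prod.smul_snd, smul_eq_mul, smul_eq_mul]
  ring

/-- vectors parallel to `(w, 1)` -/
theorem snd_ne {q : ℂ × ℂ} (hq : q ≠ 0) {w : ℂ} (h : cr q (w, 1) = 0) : q.2 ≠ 0 ∧ q.1 / q.2 = w := by
  have h1 : q.1 = q.2 * w := by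
    unfold cr at h
    simp only [mul_one] at h
    exact sub_eq_zero.1 h
  have h2 : q.2 ≠ 0 := by
    intro h0
    refine hq (Prod.ext ?_ h0)
    rw [h1, h0, zero_mul]
    rfl
  refine ⟨h2, ?_⟩
  rw [h1]
  field_simp

/-- small chordal distance to `(p, 1)` -/
theorem near_of_cho {p : ℂ} {ε : ℝ} (hε : 0 < ε) {q v : ℂ × ℂ} (hq : q ≠ 0) (hv : v ≠ 0)
    (hvp : cr v (p, 1) = 0)
    (h : cho q v < min (1 / (2 * (1 + ‖p‖ ^ 2))) (ε / (2 * (1 + ‖p‖ ^ 2)))) :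
    q.2 ≠ 0 ∧ ‖q.1 / q.2 - p‖ < ε := by
  obtain ⟨hv2, hvp'⟩ := snd_ne hv hvp
  set A : ℝ := 1 + ‖p‖ ^ 2 with hA
  have hA1 : 1 ≤ A := by
    have : 0 ≤ ‖p‖ ^ 2 := by positivity
    linarith
  set δ := min (1 / (2 * A)) (ε / (2 * A)) with hδ
  have hδ1 : δ ≤ 1 / (2 * A) := min_le_left _ _
  have hδ2 : δ ≤ ε / (2 * A) := min_le_right _ _
  have hcho0 : 0 ≤ cho q v := by
    unfold cho
    positivity
  have hδ0 : 0 < δ := lt_of_le_of_lt hcho0 h
  have hv1 : v.1 = v.2 * p := by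
    rw [← hvp']
    field_simp
  have hN2v : N2 v = ‖v.2‖ ^ 2 * A := by
    unfold N2
    rw [hv1, norm_mul, hA]
    ring
  have hcr : ‖cr q v‖ = ‖v.2‖ * ‖q.1 - q.2 * p‖ := by
    unfold cr
    rw [hv1, ← norm_mul]
    congr 1
    ring
  have hv20 : 0 < ‖v.2‖ := norm_pos_iff.2 hv2
  have hN2q : 0 < N2 q := by
    unfold N2
    by_contra h0
    have h1 : ‖q.1‖ ^ 2 + ‖q.2‖ ^ 2 = 0 := le_antisymm (not_lt.1 h0) (by positivity)
    have h2 : ‖q.1‖ ^ 2 = 0 := by nlinarith [sq_nonneg ‖q.1‖, sq_nonneg ‖q.2‖]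
    have h3 : ‖q.2‖ ^ 2 = 0 := by nlinarith [sq_nonneg ‖q.1‖, sq_nonneg ‖q.2‖]
    refine hq (Prod.ext ?_ ?_)
    · exact norm_eq_zero.1 (pow_eq_zero_iff (two_ne_zero) |>.1 h2)
    · exact norm_eq_zero.1 (pow_eq_zero_iff (two_ne_zero) |>.1 h3)
  have hmain : ‖q.1 - q.2 * p‖ ^ 2 < δ ^ 2 * (N2 q * A) := by
    have hpos : 0 < N2 q * N2 v := by
      rw [hN2v]
      positivity
    have h1 : cho q v ^ 2 = ‖cr q v‖ ^ 2 / (N2 q * N2 v) := by
      unfold cho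
      rw [div_pow, Real.sq_sqrt hpos.le]
    have h2 : cho q v ^ 2 < δ ^ 2 := pow_lt_pow_left₀ h hcho0 two_ne_zero
    rw [h1, div_lt_iff₀ hpos, hcr, hN2v, mul_pow] at h2
    have h3 : ‖v.2‖ ^ 2 * ‖q.1 - q.2 * p‖ ^ 2 < ‖v.2‖ ^ 2 * (δ ^ 2 * (N2 q * A)) := by
      calc _ < _ := h2
        _ = _ := by ring
    exact lt_of_mul_lt_mul_left h3 (by positivity)
  have hδA : δ ^ 2 * A ≤ 1 / 4 := by
    have h1 : δ * A ≤ 1 / 2 := by
      calc δ * A ≤ 1 / (2 * A) * A := by gcongr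
        _ = 1 / 2 := by field_simp
    have h2 : δ ≤ 1 / 2 := by
      refine hδ1.trans ?_
      rw [div_le_div_iff₀ (by positivity) (by norm_num)]
      linarith
    nlinarith
  have hq2 : q.2 ≠ 0 := by
    intro h0
    have h1 : N2 q = ‖q.1‖ ^ 2 := by
      unfold N2
      rw [h0, norm_zero]
      ring
    rw [h0, zero_mul, sub_zero, h1] at hmain
    have h2 : 0 < ‖q.1‖ ^ 2 := by rw [← h1]; exact hN2q
    nlinarith
  refine ⟨hq2, ?_⟩
  set G := q.1 / q.2 with hG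
  have hq20 : 0 < ‖q.2‖ := norm_pos_iff.2 hq2
  have hq1 : q.1 = q.2 * G := by
    rw [hG]
    field_simp
  have h1 : ‖G - p‖ ^ 2 < δ ^ 2 * ((1 + ‖G‖ ^ 2) * A) := by
    have h2 : ‖q.1 - q.2 * p‖ = ‖q.2‖ * ‖G - p‖ := by
      rw [hq1, ← norm_mul]
      congr 1
      ring
    have h3 : N2 q = ‖q.2‖ ^ 2 * (1 + ‖G‖ ^ 2) := by
      unfold N2
      rw [hq1, norm_mul]
      ring
    rw [h2, h3, mul_pow] at hmain
    have h4 : ‖q.2‖ ^ 2 * ‖G - p‖ ^ 2 < ‖q.2‖ ^ 2 * (δ ^ 2 * ((1 + ‖G‖ ^ 2) * A)) := by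
      calc _ < _ := hmain
        _ = _ := by ring
    exact lt_of_mul_lt_mul_left h4 (by positivity)
  have h5 : ‖G‖ ^ 2 ≤ 2 * ‖p‖ ^ 2 + 2 * ‖G - p‖ ^ 2 := by
    have h6 : ‖G‖ ≤ ‖p‖ + ‖G - p‖ := by
      calc ‖G‖ = ‖p + (G - p)‖ := by congr 1; ring
        _ ≤ _ := norm_add_le _ _
    nlinarith [norm_nonneg G, norm_nonneg p, norm_nonneg (G - p), sq_nonneg (‖p‖ - ‖G - p‖)]
  have h6 : ‖G - p‖ ^ 2 < 4 * δ ^ 2 * A ^ 2 := by
    have h7 : δ ^ 2 * ((1 + ‖G‖ ^ 2) * A) ≤ δ ^ 2 * ((2 * A + 2 * ‖G - p‖ ^ 2) * A) := by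
      have : 1 + ‖G‖ ^ 2 ≤ 2 * A + 2 * ‖G - p‖ ^ 2 := by
        rw [hA]
        linarith
      gcongr
    have h8 : δ ^ 2 * ((2 * A + 2 * ‖G - p‖ ^ 2) * A) =
        2 * δ ^ 2 * A ^ 2 + 2 * (δ ^ 2 * A) * ‖G - p‖ ^ 2 := by ring
    have h9 : 2 * (δ ^ 2 * A) * ‖G - p‖ ^ 2 ≤ 1 / 2 * ‖G - p‖ ^ 2 := by
      have : 0 ≤ ‖G - p‖ ^ 2 := by positivity
      nlinarith
    nlinarith
  have h7 : ‖G - p‖ < 2 * δ * A := by
    refine lt_of_pow_lt_pow_left₀ 2 (by positivity) ?_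
    calc ‖G - p‖ ^ 2 < 4 * δ ^ 2 * A ^ 2 := h6
      _ = (2 * δ * A) ^ 2 := by ring
  have h8 : 2 * δ * A ≤ ε := by
    calc 2 * δ * A ≤ 2 * (ε / (2 * A)) * A := by gcongr
      _ = ε := by field_simp
  linarith

/-- the exceptional points for the comparison of the iterates -/
theorem exc {d : ℕ} {x : CV d} (hnd : ND x) (n : ℕ) {y : ℂ} {ρ : ℝ} (hρ : 0 < ρ) (G : ℂ → ℂ)
    (hG : ∀ w ∈ ball y ρ, cr ((hF x)^[n] (G w, 1)) (w, 1) = 0) :
    ∃ E : Set ℂ, E.Finite ∧ ∀ z ∉ E, ∀ j ≤ n, ((hF x)^[j] (z, 1)).2 ≠ 0 := by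
  classical
  choose A B hAB using iter_pol x
  have hB : ∀ j ≤ n, B j ≠ 0 := by
    intro j hj h0
    have h1 : ∀ z : ℂ, (hF x)^[j] (z, 1) = (A j).eval z • ((1 : ℂ), (0 : ℂ)) := by
      intro z
      rw [hAB, h0, eval_zero]
      apply Prod.ext
      · rw [Prod.smul_fst, smul_eq_mul, mul_one]
      · rw [Prod.smul_snd, smul_eq_mul, mul_zero]
    set v := (hF x)^[n - j] ((1 : ℂ), (0 : ℂ)) with hv
    have hv0 : v ≠ 0 := iter_ne hnd _ (by simp)
    have h2 : ∀ w ∈ ball y ρ, cr v (w, 1) = 0 := by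
      intro w hw
      have h3 := hG w hw
      have h4 : (hF x)^[n] (G w, 1) = (A j).eval (G w) ^ d ^ (n - j) • v := by
        have h5 : n = (n - j) + j := by omega
        conv_lhs => rw [h5]
        rw [Function.iterate_add_apply, h1, iter_smul]
      rw [h4, cr_smul_left] at h3
      rcases mul_eq_zero.1 h3 with h6 | h6
      · exfalso
        have h7 : (hF x)^[n] (G w, 1) = 0 := by rw [h4, h6, zero_smul]
        exact iter_ne hnd n (by simp) h7
      · exact h6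
    have e1 := (snd_ne hv0 (h2 y (mem_ball_self hρ))).2
    have h8 : y + ((ρ / 2 : ℝ) : ℂ) ∈ ball y ρ := by
      rw [mem_ball, dist_eq_norm, add_sub_cancel_left, Complex.norm_real,
        Real.norm_of_nonneg (by positivity)]
      linarith
    have e2 := (snd_ne hv0 (h2 _ h8)).2
    rw [e1] at e2
    have e3 : ((ρ / 2 : ℝ) : ℂ) = 0 := by linear_combination -e2
    rw [Complex.ofReal_eq_zero] at e3
    linarith
  refine ⟨⋃ j ∈ Finset.range (n + 1), ((B j).roots.toFinset : Set ℂ), ?_, ?_⟩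
  · exact Set.Finite.biUnion (Finset.finite_toSet _) fun j _ => Finset.finite_toSet _
  · intro z hz j hj h0
    apply hz
    rw [hAB] at h0
    simp only [mem_iUnion]
    refine ⟨j, Finset.mem_range.2 (by omega), ?_⟩
    rw [Finset.mem_coe, Multiset.mem_toFinset, mem_roots (hB j hj)]
    exact h0

theorem dyn {d : ℕ} {x : CV d} {H : ℂ → ℂ} {R L : ℝ} (hnd : ND x) (hE : Equ x H) (hS : Shr x)
    (hR : 0 < R) {p : ℂ} (hp : p ∈ Con x R L) {ε : ℝ} (hε : 0 < ε) :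
    ∃ (y : ℂ) (G : ℂ → ℂ), ‖y‖ ≤ L ∧ Univ G y (R / 2) ∧ G y = p ∧
      (∀ w ∈ ball y (R / 2), ‖G w - p‖ < ε) ∧
      ∀ᵐ w : ℂ, w ∈ ball y (R / 2) → ∃ a : ℝ, 0 ≤ a ∧ H (G w) * deriv G w ^ 2 = (a : ℂ) * H w := by
  have hR2 : 0 < R / 2 := by linarith
  have hε' : 0 < min (1 / (2 * (1 + ‖p‖ ^ 2))) (ε / (2 * (1 + ‖p‖ ^ 2))) := by positivity
  obtain ⟨N, hN⟩ := hS R hR _ hε'
  obtain ⟨n, hn, y, hyL, hyz, g, hg, hgy⟩ := (frequently_atTop.1 hp) N
  have hsub : ball y (R / 2) ⊆ ball y R := ball_subset_ball (by linarith)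
  have hg0 : ∀ w ∈ ball y R, g w ≠ 0 := fun w hw => (hg.2 w hw).1
  have hgy0 := hg0 y (mem_ball_self hR)
  have hnear : ∀ w ∈ ball y (R / 2), (g w).2 ≠ 0 ∧ ‖(g w).1 / (g w).2 - p‖ < ε := fun w hw =>
    near_of_cho hε (hg0 w (hsub hw)) hgy0 hgy (hN n hn y g hg w hw)
  set G : ℂ → ℂ := fun w => (g w).1 / (g w).2 with hG
  have hpar : ∀ w ∈ ball y (R / 2), g w = (g w).2 • (G w, (1 : ℂ)) := by
    intro w hw
    have h2 := (hnear w hw).1
    apply Prod.ext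
    · rw [Prod.smul_fst, smul_eq_mul, hG]
      field_simp
    · rw [Prod.smul_snd, smul_eq_mul, mul_one]
  have hcr : ∀ w ∈ ball y (R / 2), cr ((hF x)^[n] (G w, 1)) (w, 1) = 0 := by
    intro w hw
    have h1 := (hg.2 w (hsub hw)).2
    rw [hpar w hw, iter_smul, cr_smul_left] at h1
    rcases mul_eq_zero.1 h1 with h2 | h2
    · exact absurd h2 (pow_ne_zero _ (hnear w hw).1)
    · exact h2
  have hval : ∀ w ∈ ball y (R / 2),
      ((hF x)^[n] (G w, 1)).1 / ((hF x)^[n] (G w, 1)).2 = w := fun w hw =>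
    (snd_ne (iter_ne hnd n (by simp)) (hcr w hw)).2
  have hGd : DifferentiableOn ℂ G (ball y (R / 2)) := by
    have h1 : DifferentiableOn ℂ (fun w => (g w).1) (ball y (R / 2)) := (hg.1.mono hsub).fst
    have h2 : DifferentiableOn ℂ (fun w => (g w).2) (ball y (R / 2)) := (hg.1.mono hsub).snd
    exact h1.div h2 fun w hw => (hnear w hw).1
  have hinj : InjOn G (ball y (R / 2)) := by
    intro w hw w' hw' h
    rw [← hval w hw, ← hval w' hw', h]
  have hu : Univ G y (R / 2) := ⟨hGd, hinj⟩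
  refine ⟨y, G, hyL, hu, (snd_ne hgy0 hgy).2, fun w hw => (hnear w hw).2, ?_⟩
  obtain ⟨Ex, hEf, hEx⟩ := exc hnd n hR2 G hcr
  have hpf : ∀ w ∈ ball y (R / 2), G w ∉ Ex → (pf x)^[n] (G w) = w := by
    intro w hw hGw
    rw [pf_iter x n (hEx (G w) hGw), hval w hw]
  -- the good points
  have hEq := hE.1 n
  set Z : Set ℂ := {w | ¬ ∃ a : ℝ, 0 ≤ a ∧ (H w ≠ 0 → 0 < a) ∧ DifferentiableAt ℂ ((pf x)^[n]) w ∧
    H w = (a : ℂ) * deriv ((pf x)^[n]) w ^ 2 * H ((pf x)^[n] w)} with hZ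
  have hZ0 : volume Z = 0 := hEq
  have hZE : volume (Z ∪ Ex) = 0 := by
    rw [measure_union_null_iff]
    exact ⟨hZ0, hEf.measure_zero _⟩
  filter_upwards [null_pre hu hZE] with w hw hwb
  have hwn := hw hwb
  have hwZ : G w ∉ Z := fun h => hwn (Or.inl h)
  have hwE : G w ∉ Ex := fun h => hwn (Or.inr h)
  obtain ⟨a, ha0, -, hdif, hHG⟩ := not_not.1 hwZ
  rw [hpf w hwb hwE] at hHG
  refine ⟨a, ha0, ?_⟩
  -- the chain rule
  have hopen : IsOpen (ball y (R / 2) ∩ G ⁻¹' Exᶜ) :=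
    hGd.continuousOn.isOpen_inter_preimage isOpen_ball hEf.isClosed.isOpen_compl
  have hev : (fun w => (pf x)^[n] (G w)) =ᶠ[𝓝 w] fun w => w := by
    filter_upwards [hopen.mem_nhds ⟨hwb, hwE⟩] with v hv
    exact hpf v hv.1 hv.2
  have hGw : HasDerivAt G (deriv G w) w :=
    (hGd.differentiableAt (isOpen_ball.mem_nhds hwb)).hasDerivAt
  have hcomp : HasDerivAt (fun w => (pf x)^[n] (G w)) (deriv ((pf x)^[n]) (G w) * deriv G w) w :=
    hdif.hasDerivAt.comp w hGw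
  have hone : deriv ((pf x)^[n]) (G w) * deriv G w = 1 :=
    (hcomp.congr_of_eventuallyEq hev.symm).unique (hasDerivAt_id w)
  rw [hHG]
  calc (a : ℂ) * deriv ((pf x)^[n]) (G w) ^ 2 * H w * deriv G w ^ 2
      = a * H w * (deriv ((pf x)^[n]) (G w) * deriv G w) ^ 2 := by ring
    _ = a * H w := by rw [hone]; ring

theorem t_DENS : S_DENS := by
  intro d x H K R L _ hnd hF hE hS hR hvol
  have h1 := leb hF.meas hF.int
  obtain ⟨p, ⟨hp0, hpC⟩, hpl⟩ : ∃ p, (H p ≠ 0 ∧ p ∈ Con x R L) ∧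
      ∀ η > (0 : ℝ), ∃ δ > (0 : ℝ), ∀ r : ℝ, 0 < r → r < δ →
        ∫⁻ z in closedBall p r, ‖H z - H p‖ₑ ≤ ENNReal.ofReal (η * r ^ 2) := by
    by_contra hcon
    push Not at hcon
    apply hvol
    refine measure_mono_null ?_ h1
    intro z hz hz2
    obtain ⟨η, hη, h3⟩ := hcon z hz
    obtain ⟨δ, hδ, h4⟩ := hz2 η hη
    obtain ⟨r, hr, hrδ, h5⟩ := h3 δ hδ
    exact absurd (h4 r hr hrδ) (not_le.2 h5)
  obtain ⟨y, R', k, hR', hk, hk0, hae⟩ := blow hF.meas hp0 hpl (show 0 < R / 2 by linarith)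
    (fun ε hε => dyn hnd hE hS hR hpC hε)
  exact ⟨y, R', k, hR', hk, hk0, hae⟩

end Pool.Agent.H221.HY211
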