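import Pool.Agent.H211.HY.Stm3
import Pool.Agent.H734.HY211.HIT
import Pool.Agent.H870.HY211.LSS
import Pool.Agent.H685.HY211.ORBS

/-!
# HY (helper211): S_HITL, the hit lemma with local degrees
-/

set_option autoImplicit false

open Topology Filter Metric Set MeasureTheory Polynomial

namespace Pool.Agent.H221.HY211.HITL

open Pool.Agent.H790R3.RB
open Pool.Agent.H211.HY
open Pool.Agent.W746.LD (Univ KC exists_KC)
open Pool.Agent.Y298.SH.CE (MG RR exists_MG)
open Pool.Agent.H734.HY211 (fin_min uce cr_deriv cho_norm cho_coord coord_deriv)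
open Pool.Agent.H870.HY211 (N2_nonneg N2_pos N2_smul cho_nonneg cho_smul_right norm_cr form_factor
  hF_bound local_lift)
open Pool.Agent.H685.HY211 (wr_one)

/-! ### Multiplicities -/

theorem mult_le {d k : ℕ} (x : CV d) {c : Fin k → ℂ} {m : Fin k → ℕ}
    (hfac : Fac x k c m) (hinf : wr x (1, 0) ≠ 0) {v : ℂ × ℂ} (hv : v ≠ 0) {a : ℂ}
    {q : Fin d → ℂ × ℂ} (hq : ∀ z : ℂ × ℂ, cr (hF x z) v = a * ∏ j, cr z (q j))
    (i : Fin k) (S : Finset (Fin d)) (hS : ∀ j ∈ S, cr (q j) (c i, 1) = 0) :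
    S.card ≤ m i + 1 := by
  classical
  by_contra hcon
  have hcard : m i + 2 ≤ S.card := by omega
  obtain ⟨P, hP⟩ : ∃ P : ℂ[X], P = C v.2 * pol x 0 - C v.1 * pol x 1 := ⟨_, rfl⟩
  obtain ⟨L, hL⟩ : ∃ L : Fin d → ℂ[X], L = fun j => C (q j).2 * X - C (q j).1 := ⟨_, rfl⟩
  have hLe : ∀ j ζ, (L j).eval ζ = cr (ζ, 1) (q j) := by
    intro j ζ
    rw [hL]
    simp only [eval_sub, eval_mul, eval_C, eval_X]
    unfold cr
    ring
  have hPe : P = C a * ∏ j, L j := by
    refine Polynomial.funext fun ζ => ?_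
    have h1 := hq (ζ, 1)
    rw [PQ.hF_one] at h1
    rw [hP, eval_sub, eval_mul, eval_mul, eval_C, eval_C, eval_mul, eval_C, eval_prod]
    simp only [hLe]
    rw [← h1]
    unfold cr
    ring
  have h1 : ∀ j ∈ S, (X - C (c i)) ∣ L j := by
    intro j hj
    rw [Polynomial.dvd_iff_isRoot, Polynomial.IsRoot.def, hLe, cr_comm, hS j hj, neg_zero]
  have h2 : (X - C (c i)) ^ (m i + 2) ∣ P := by
    have h3 : (X - C (c i)) ^ S.card ∣ ∏ j ∈ S, L j := by
      rw [← Finset.prod_const]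
      exact Finset.prod_dvd_prod_of_dvd _ _ h1
    have h4 : ∏ j ∈ S, L j ∣ ∏ j, L j :=
      Finset.prod_dvd_prod_of_subset _ _ _ (Finset.subset_univ S)
    rw [hPe]
    exact ((pow_dvd_pow _ hcard).trans (h3.trans h4)).trans (Dvd.intro_left _ rfl)
  have h3 : (X - C (c i)) ^ (m i + 1) ∣ derivative P := by
    have := Polynomial.pow_sub_one_dvd_derivative_of_pow_dvd h2
    exact this
  have h2' : (X - C (c i)) ^ (m i + 1) ∣ P := (pow_dvd_pow _ (by omega)).trans h2
  obtain ⟨W, hW⟩ : ∃ W : ℂ[X], W = Wp (pol x 0) (pol x 1) := ⟨_, rfl⟩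
  have hdP : derivative P = C v.2 * derivative (pol x 0) - C v.1 * derivative (pol x 1) := by
    rw [hP, derivative_sub, derivative_mul, derivative_mul, derivative_C, derivative_C]
    ring
  have e1 : C v.2 * W = derivative P * pol x 1 - P * derivative (pol x 1) := by
    rw [hW, hdP, hP]
    unfold Wp
    ring
  have e2 : C v.1 * W = derivative P * pol x 0 - P * derivative (pol x 0) := by
    rw [hW, hdP, hP]
    unfold Wp
    ring
  have d1 : (X - C (c i)) ^ (m i + 1) ∣ C v.2 * W := by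
    rw [e1]
    exact dvd_sub (h3.mul_right _) (h2'.mul_right _)
  have d2 : (X - C (c i)) ^ (m i + 1) ∣ C v.1 * W := by
    rw [e2]
    exact dvd_sub (h3.mul_right _) (h2'.mul_right _)
  have d3 : (X - C (c i)) ^ (m i + 1) ∣ W := by
    by_cases h : v.2 = 0
    · have h' : v.1 ≠ 0 := fun h1 => hv (Prod.ext h1 h)
      have h5 : C (v.1)⁻¹ * (C v.1 * W) = W := by
        rw [← mul_assoc, ← C_mul, inv_mul_cancel₀ h', C_1, one_mul]
      rw [← h5]
      exact d2.mul_left _
    · have h5 : C (v.2)⁻¹ * (C v.2 * W) = W := by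
        rw [← mul_assoc, ← C_mul, inv_mul_cancel₀ h, C_1, one_mul]
      rw [← h5]
      exact d1.mul_left _
  have e3 : C (d : ℂ) * W = C (wr x (1, 0)) * ∏ i', (X - C (c i')) ^ m i' := by
    refine Polynomial.funext fun ζ => ?_
    have h5 := hfac.fac ζ
    rw [wr_one] at h5
    rw [eval_mul, eval_C, hW, h5, eval_mul, eval_C, eval_prod]
    refine congrArg _ (Finset.prod_congr rfl fun i' _ => ?_)
    rw [eval_pow, eval_sub, eval_X, eval_C]
  have d4 : (X - C (c i)) ^ (m i + 1) ∣ C (wr x (1, 0)) * ∏ i', (X - C (c i')) ^ m i' := by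
    rw [← e3]
    exact d3.mul_left _
  rw [← Finset.mul_prod_erase Finset.univ (fun i' => (X - C (c i')) ^ m i') (Finset.mem_univ i),
    ← mul_assoc, mul_comm (C (wr x (1, 0))), mul_assoc, pow_succ] at d4
  have h6 : (X - C (c i)) ^ m i ≠ 0 := pow_ne_zero _ (X_sub_C_ne_zero _)
  have d5 := (mul_dvd_mul_iff_left h6).1 d4
  rw [Polynomial.dvd_iff_isRoot, Polynomial.IsRoot.def, eval_mul, eval_C, eval_prod] at d5
  refine mul_ne_zero hinf (Finset.prod_ne_zero_iff.2 fun i' hi' => ?_) d5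
  rw [eval_pow, eval_sub, eval_X, eval_C]
  refine pow_ne_zero _ (sub_ne_zero.2 fun h => ?_)
  exact (Finset.ne_of_mem_erase hi') (hfac.inj h).symm

/-- the preimages of a point, with a lower bound for the distance of the images -/
theorem preimages {d : ℕ} (x : CV d) (hd : 2 ≤ d) (hx : ND x) (hw : ∃ p, wr x p ≠ 0)
    (v : ℂ × ℂ) (hv : v ≠ 0) : ∃ C > (0 : ℝ), ∃ (a : ℂ) (q : Fin d → ℂ × ℂ),
      (∀ j, q j ≠ 0) ∧ (∀ z : ℂ × ℂ, cr (hF x z) v = a * ∏ j, cr z (q j)) ∧
      ∀ z : ℂ × ℂ, z ≠ 0 → ∏ j, cho z (q j) ≤ C * cho (hF x z) v := by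
  obtain ⟨c, hc⟩ : ∃ c : Fin (d + 1) → ℂ, c = fun j => x (0, j) * v.2 - x (1, j) * v.1 :=
    ⟨_, rfl⟩
  have hform : ∀ z : ℂ × ℂ, ∑ j : Fin (d + 1), c j * (z.1 ^ (j : ℕ) * z.2 ^ (d - (j : ℕ))) =
      cr (hF x z) v := by
    intro z
    unfold cr hF
    simp only
    rw [Finset.sum_mul, Finset.sum_mul, ← Finset.sum_sub_distrib, hc]
    refine Finset.sum_congr rfl fun j _ => ?_
    ring
  have hne : ∃ z : ℂ × ℂ,
      ∑ j : Fin (d + 1), c j * (z.1 ^ (j : ℕ) * z.2 ^ (d - (j : ℕ))) ≠ 0 := by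
    by_contra hcon
    push Not at hcon
    have h0 : ∀ z : ℂ × ℂ, cr (hF x z) v = 0 := fun z => by rw [← hform z]; exact hcon z
    obtain ⟨p, hp⟩ := hw
    have hcd : ContDiff ℂ 1 (hF x) :=
      (hF_contDiff d 1).comp (contDiff_const.prodMk contDiff_id)
    have hda : HasFDerivAt (hF x) (fderiv ℂ (hF x) p) p :=
      (hcd.differentiable one_ne_zero p).hasFDerivAt
    have h1 : HasFDerivAt (fun z => (hF x z).1 * v.2 - (hF x z).2 * v.1)
        (v.2 • ((ContinuousLinearMap.fst ℂ ℂ ℂ).comp (fderiv ℂ (hF x) p)) -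
          v.1 • ((ContinuousLinearMap.snd ℂ ℂ ℂ).comp (fderiv ℂ (hF x) p))) p := by
      have e1 : HasFDerivAt (fun z => (hF x z).1)
          ((ContinuousLinearMap.fst ℂ ℂ ℂ).comp (fderiv ℂ (hF x) p)) p := hda.fst
      have e2 : HasFDerivAt (fun z => (hF x z).2)
          ((ContinuousLinearMap.snd ℂ ℂ ℂ).comp (fderiv ℂ (hF x) p)) p := hda.snd
      exact (e1.mul_const v.2).sub (e2.mul_const v.1)
    have h2 : (fun z => (hF x z).1 * v.2 - (hF x z).2 * v.1) = fun _ => 0 := funext h0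
    rw [h2] at h1
    have h3 := h1.unique (hasFDerivAt_const (0 : ℂ) p)
    have h4 : ∀ t : ℂ × ℂ, cr (fderiv ℂ (hF x) p t) v = 0 := by
      intro t
      have := congrArg (fun L : ℂ × ℂ →L[ℂ] ℂ => L t) h3
      have e : cr (fderiv ℂ (hF x) p t) v =
        v.2 * (fderiv ℂ (hF x) p t).1 - v.1 * (fderiv ℂ (hF x) p t).2 := by
        unfold cr
        ring
      rw [e]
      exact this
    have h5 := (WR d x hd).2.2 p (1, 0) (0, 1)
    have h6 : cr (fderiv ℂ (hF x) p (1, 0)) (fderiv ℂ (hF x) p (0, 1)) = 0 :=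
      cr_trans hv (h4 _) (by rw [cr_comm, h4, neg_zero])
    have h7 : cr ((1, 0) : ℂ × ℂ) (0, 1) = 1 := by unfold cr; simp
    rw [h6, h7, mul_one] at h5
    exact hp h5.symm
  obtain ⟨a, q, ha, hq, hfac⟩ := form_factor c hne
  obtain ⟨M, hM, hbd⟩ := hF_bound x
  have ha' := norm_pos_iff.2 ha
  have hNv := N2_pos hv
  have sv0 := Real.sqrt_pos.2 hNv
  have sq0 : ∀ j, 0 < Real.sqrt (N2 (q j)) := fun j => Real.sqrt_pos.2 (N2_pos (hq j))
  have hQ0 : 0 < ∏ j, Real.sqrt (N2 (q j)) := Finset.prod_pos fun j _ => sq0 j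
  refine ⟨M * Real.sqrt (N2 v) / (‖a‖ * ∏ j, Real.sqrt (N2 (q j))), by positivity, a, q, hq,
    fun z => by rw [← hform, hfac], ?_⟩
  · intro z hz
    have hFz : hF x z ≠ 0 := fun h => hz (hx _ h)
    have sz0 := Real.sqrt_pos.2 (N2_pos hz)
    have e1 : ‖cr (hF x z) v‖ = ‖a‖ * ∏ j, ‖cr z (q j)‖ := by
      rw [← hform, hfac, norm_mul, norm_prod]
    have e2 : ∏ j, ‖cr z (q j)‖ = (∏ j, cho z (q j)) * (Real.sqrt (N2 z) ^ d *
        ∏ j, Real.sqrt (N2 (q j))) := by
      have : ∀ j ∈ (Finset.univ : Finset (Fin d)), ‖cr z (q j)‖ =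
          cho z (q j) * (Real.sqrt (N2 z) * Real.sqrt (N2 (q j))) := fun j _ => norm_cr hz (hq j)
      rw [Finset.prod_congr rfl this, Finset.prod_mul_distrib, Finset.prod_mul_distrib,
        Finset.prod_const, Finset.card_univ, Fintype.card_fin]
    rw [norm_cr hFz hv, e2] at e1
    have h3 := hbd z
    obtain ⟨Pr, hPi⟩ : ∃ Pr : ℝ, Pr = ∏ j, cho z (q j) := ⟨_, rfl⟩
    obtain ⟨Q, hQ⟩ : ∃ Q : ℝ, Q = ∏ j, Real.sqrt (N2 (q j)) := ⟨_, rfl⟩
    obtain ⟨t, ht⟩ : ∃ t : ℝ, t = Real.sqrt (N2 z) ^ d := ⟨_, rfl⟩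
    have ht0 : 0 < t := by rw [ht]; positivity
    rw [← hPi, ← hQ, ← ht] at e1
    rw [← ht] at h3
    rw [← hQ] at hQ0
    rw [← hPi, ← hQ, div_mul_eq_mul_div, le_div_iff₀ (by positivity)]
    have h4 : cho (hF x z) v * (Real.sqrt (N2 (hF x z)) * Real.sqrt (N2 v)) ≤
        cho (hF x z) v * ((M * t) * Real.sqrt (N2 v)) :=
      mul_le_mul_of_nonneg_left (mul_le_mul_of_nonneg_right h3 sv0.le) (cho_nonneg _ _)
    rw [e1] at h4
    have h5 : t * (Pr * (‖a‖ * Q)) ≤ t * (M * Real.sqrt (N2 v) * cho (hF x z) v) := by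
      calc t * (Pr * (‖a‖ * Q)) = ‖a‖ * (Pr * (t * Q)) := by ring
        _ ≤ _ := h4
        _ = _ := by ring
    exact le_of_mul_le_mul_left h5 ht0

/-- the alternative near a point, with local degrees -/
def Alt {d k : ℕ} (x : CV d) (c : Fin k → ℂ) (m : Fin k → ℕ) (v : ℂ × ℂ) (C s : ℝ) : Prop :=
  ∀ z : ℂ × ℂ, z ≠ 0 → cho (hF x z) v < s →
    (∃ i : Fin k, cr (hF x (c i, 1)) v = 0 ∧
      cho z (c i, 1) ^ (m i + 1) ≤ C * cho (hF x z) v) ∨
    ∀ (g : ℂ → ℂ × ℂ) (y : ℂ) (R : ℝ), 0 < R → DifferentiableOn ℂ g (ball y R) →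
        (∀ w ∈ ball y R, g w ≠ 0 ∧ cho (g w) v < s) → cr (g y) (hF x z) = 0 →
        ∃ G : ℂ → ℂ × ℂ, DifferentiableOn ℂ G (ball y R) ∧
          (∀ w ∈ ball y R, G w ≠ 0 ∧ cr (hF x (G w)) (g w) = 0) ∧ cr (G y) z = 0

theorem Alt.mono {d k : ℕ} {x : CV d} {c : Fin k → ℂ} {m : Fin k → ℕ} {v : ℂ × ℂ}
    {C C' s s' : ℝ} (h : Alt x c m v C s) (hC : C ≤ C') (hs : s' ≤ s) : Alt x c m v C' s' := by
  intro z hz hzs
  rcases h z hz (hzs.trans_le hs) with ⟨c', h1, h2⟩ | h1
  · refine Or.inl ⟨c', h1, h2.trans ?_⟩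
    exact mul_le_mul_of_nonneg_right hC (cho_nonneg _ _)
  · refine Or.inr fun g y R hR hg hgs hgz => h1 g y R hR hg (fun w hw => ?_) hgz
    exact ⟨(hgs w hw).1, (hgs w hw).2.trans_le hs⟩

/-- critical directions -/
theorem crit_dir {d k : ℕ} (x : CV d) (hd : 2 ≤ d) {c : Fin k → ℂ} {m : Fin k → ℕ}
    (hfac : Fac x k c m) (hinf : wr x (1, 0) ≠ 0) {q : ℂ × ℂ} (hq : q ≠ 0) (hw : wr x q = 0) :
    ∃ i : Fin k, ∃ a : ℂ, a ≠ 0 ∧ q = a • ((c i, 1) : ℂ × ℂ) := by
  have hsm := (WR d x hd).1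
  by_cases h2 : q.2 = 0
  · exfalso
    have h1 : q.1 ≠ 0 := fun h => hq (Prod.ext h h2)
    have e1 : q = q.1 • ((1, 0) : ℂ × ℂ) := by
      refine Prod.ext ?_ ?_
      · show q.1 = q.1 * 1
        rw [mul_one]
      · show q.2 = q.1 * 0
        rw [mul_zero, h2]
    rw [e1, hsm] at hw
    exact mul_ne_zero (pow_ne_zero _ h1) hinf hw
  · have e1 : q = q.2 • ((q.1 / q.2, 1) : ℂ × ℂ) := by
      refine Prod.ext ?_ ?_
      · show q.1 = q.2 * (q.1 / q.2)
        rw [mul_div_cancel₀ _ h2]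
      · show q.2 = q.2 * 1
        rw [mul_one]
    rw [e1, hsm, hfac.fac] at hw
    rcases mul_eq_zero.1 hw with h | h
    · exact absurd h (pow_ne_zero _ h2)
    rcases mul_eq_zero.1 h with h | h
    · exact absurd h hinf
    obtain ⟨i, -, hi⟩ := Finset.prod_eq_zero_iff.1 h
    have hmi : m i ≠ 0 := by
      have := hfac.pos i
      omega
    have h3 : q.1 / q.2 = c i := sub_eq_zero.1 ((pow_eq_zero_iff hmi).1 hi)
    refine ⟨i, q.2, h2, ?_⟩
    rw [← h3]
    exact e1

theorem crit_pt {d k : ℕ} {x : CV d} {c : Fin k → ℂ} {m : Fin k → ℕ}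
    (hfac : Fac x k c m) (i : Fin k) : wr x (c i, 1) = 0 := by
  rw [hfac.fac, Finset.prod_eq_zero (Finset.mem_univ i), mul_zero]
  rw [sub_self, zero_pow]
  have := hfac.pos i
  omega

theorem pt_ne (ζ : ℂ) : ((ζ, 1) : ℂ × ℂ) ≠ 0 := by
  intro h
  exact one_ne_zero (congrArg Prod.snd h)

theorem alt_exists {d k : ℕ} (hCHO : S_CHO) (x : CV d) (hd : 2 ≤ d) (hx : ND x) {c : Fin k → ℂ}
    {m : Fin k → ℕ} (hfac : Fac x k c m) (hinf : wr x (1, 0) ≠ 0) (v : ℂ × ℂ) (hv : v ≠ 0) :
    ∃ C > (0 : ℝ), ∃ s > (0 : ℝ), Alt x c m v C s := by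
  classical
  obtain ⟨htri, hcb, hcz, hcs, -⟩ := hCHO
  obtain ⟨C, hC, a, q, hq0, hqf, hprod⟩ := preimages x hd hx ⟨(1, 0), hinf⟩ v hv
  have hqv : ∀ j, cr (hF x (q j)) v = 0 := by
    intro j
    rw [hqf, Finset.prod_eq_zero (Finset.mem_univ j) (cr_self _), mul_zero]
  -- radii at the noncritical preimages
  have hloc : ∀ j : Fin d, ∃ s > (0 : ℝ), wr x (q j) ≠ 0 → ∀ z : ℂ × ℂ, z ≠ 0 →
      cho z (q j) < s →
      ∀ (g : ℂ → ℂ × ℂ) (y : ℂ) (R : ℝ), 0 < R → DifferentiableOn ℂ g (ball y R) →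
        (∀ w ∈ ball y R, g w ≠ 0 ∧ cho (g w) (hF x (q j)) < s) → cr (g y) (hF x z) = 0 →
        ∃ G : ℂ → ℂ × ℂ, DifferentiableOn ℂ G (ball y R) ∧
          (∀ w ∈ ball y R, G w ≠ 0 ∧ cr (hF x (G w)) (g w) = 0) ∧ cr (G y) z = 0 := by
    intro j
    by_cases h : wr x (q j) = 0
    · exact ⟨1, one_pos, fun h' => absurd h h'⟩
    · obtain ⟨s, hs, hs'⟩ := local_lift x hd hx (q j) (hq0 j) h
      exact ⟨s, hs, fun _ => hs'⟩
  choose s hs hlift using hloc
  have hd0 : 0 < d := by omega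
  have : Nonempty (Fin d) := ⟨⟨0, hd0⟩⟩
  obtain ⟨σ, hσ0, hσs⟩ := fin_min (Finset.univ : Finset (Fin d)) s 0 fun j _ => hs j
  -- separation of the preimages
  obtain ⟨η, hη0, hηs⟩ := fin_min ((Finset.univ : Finset (Fin d × Fin d)).filter
    fun p => cr (q p.1) (q p.2) ≠ 0) (fun p => cho (q p.1) (q p.2)) 0 (by
      intro p hp
      rw [Finset.mem_filter] at hp
      refine lt_of_le_of_ne (hcb _ _).2.1 fun h => hp.2 ?_
      exact (hcz _ _ (hq0 _) (hq0 _)).1 h.symm)
  obtain ⟨t, ht⟩ : ∃ t : ℝ, t = min (η / 2) 1 := ⟨_, rfl⟩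
  have ht0 : 0 < t := by rw [ht]; exact lt_min (by linarith) one_pos
  have ht1 : t ≤ 1 := by rw [ht]; exact min_le_right _ _
  have htη : t ≤ η / 2 := by rw [ht]; exact min_le_left _ _
  refine ⟨C / t ^ d, by positivity, min σ (σ ^ d / C), lt_min hσ0 (by positivity), ?_⟩
  intro z hz hzs
  have h1 : cho (hF x z) v < σ ^ d / C := hzs.trans_le (min_le_right _ _)
  rw [lt_div_iff₀ hC] at h1
  have h2 := hprod z hz
  obtain ⟨j, -, hj⟩ := Finset.exists_min_image (Finset.univ : Finset (Fin d))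
    (fun j => cho z (q j)) Finset.univ_nonempty
  have h3 : cho z (q j) ^ d ≤ ∏ i, cho z (q i) := by
    have : ∏ _i : Fin d, cho z (q j) ≤ ∏ i, cho z (q i) :=
      Finset.prod_le_prod (fun _ _ => cho_nonneg _ _) fun i _ => hj i (Finset.mem_univ _)
    rwa [Finset.prod_const, Finset.card_univ, Fintype.card_fin] at this
  by_cases hwj : wr x (q j) = 0
  · left
    obtain ⟨i, b, hb, hqi⟩ := crit_dir x hd hfac hinf (hq0 j) hwj
    refine ⟨i, ?_, ?_⟩
    · have h4 := hqv j
      rw [hqi, hF_smul, cr_smul_left] at h4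
      exact (mul_eq_zero.1 h4).resolve_left (pow_ne_zero _ hb)
    · have h4 : cho z (c i, 1) = cho z (q j) := by rw [hqi, cho_smul_right b hb]
      rw [h4]
      obtain ⟨r, hr⟩ : ∃ r : ℝ, r = cho z (q j) := ⟨_, rfl⟩
      have hr0 : 0 ≤ r := by rw [hr]; exact cho_nonneg _ _
      have hr1 : r ≤ 1 := by rw [hr]; exact (hcb _ _).2.2
      rw [← hr]
      obtain ⟨S, hS⟩ : ∃ S : Finset (Fin d), S = Finset.univ.filter
        fun l => cr (q l) (c i, 1) = 0 := ⟨_, rfl⟩
      have hSc : S.card ≤ m i + 1 := by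
        refine mult_le x hfac hinf hv hqf i S fun l hl => ?_
        rw [hS, Finset.mem_filter] at hl
        exact hl.2
      have hlow : ∀ l ∈ Sᶜ, t ≤ cho z (q l) := by
        intro l hl
        have h5 : ¬ cr (q l) (c i, 1) = 0 := by
          intro h
          rw [Finset.mem_compl, hS, Finset.mem_filter] at hl
          exact hl ⟨Finset.mem_univ _, h⟩
        have h6 : cr (q l) (q j) ≠ 0 := by
          rw [hqi, cr_smul_right]
          exact mul_ne_zero hb h5
        have h7 : η ≤ cho (q l) (q j) := hηs (l, j) (by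
          rw [Finset.mem_filter]
          exact ⟨Finset.mem_univ _, h6⟩)
        have h8 := htri (q l) z (q j) (hq0 l) hz (hq0 j)
        rw [(hcb (q l) z).1] at h8
        have h9 := hj l (Finset.mem_univ _)
        linarith
      have h5 : r ^ (m i + 1) * t ^ d ≤ ∏ l, cho z (q l) := by
        rw [← Finset.prod_mul_prod_compl S]
        have h6 : r ^ S.card ≤ ∏ l ∈ S, cho z (q l) := by
          rw [← Finset.prod_const]
          exact Finset.prod_le_prod (fun _ _ => hr0) fun l _ => by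
            rw [hr]; exact hj l (Finset.mem_univ _)
        have h7 : t ^ (Sᶜ).card ≤ ∏ l ∈ Sᶜ, cho z (q l) := by
          rw [← Finset.prod_const]
          exact Finset.prod_le_prod (fun _ _ => ht0.le) hlow
        have h8 : r ^ (m i + 1) ≤ r ^ S.card := pow_le_pow_of_le_one hr0 hr1 hSc
        have h9 : t ^ d ≤ t ^ (Sᶜ).card := pow_le_pow_of_le_one ht0.le ht1 (by
          have := Finset.card_le_univ (Sᶜ)
          rwa [Fintype.card_fin] at this)
        exact mul_le_mul (h8.trans h6) (h9.trans h7) (by positivity)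
          (Finset.prod_nonneg fun _ _ => cho_nonneg _ _)
      rw [div_mul_eq_mul_div, le_div_iff₀ (by positivity)]
      exact h5.trans h2
  · refine Or.inr fun g y R hR hg hgs hgz => ?_
    have h4 : cho z (q j) < σ := by
      refine lt_of_pow_lt_pow_left₀ d (le_of_lt hσ0) ?_
      linarith
    refine hlift j hwj z hz (h4.trans_le (hσs j (Finset.mem_univ _))) g y R hR hg
      (fun w hw => ?_) hgz
    obtain ⟨g1, g2⟩ := hgs w hw
    refine ⟨g1, ?_⟩
    have hFq : hF x (q j) ≠ 0 := fun h => (hq0 j) (hx _ h)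
    obtain ⟨a, ha, hax⟩ := (cr_eq_zero_iff hFq hv).1 (hqv j)
    rw [hax, cho_smul_right a ha]
    exact g2.trans_le ((min_le_left _ _).trans (hσs j (Finset.mem_univ _)))

/-- uniform constants -/
theorem alt_all {d k : ℕ} (hCHO : S_CHO) (x : CV d) (hd : 2 ≤ d) (hx : ND x) {c : Fin k → ℂ}
    {m : Fin k → ℕ} (hfac : Fac x k c m) (hinf : wr x (1, 0) ≠ 0) :
    ∃ C > (0 : ℝ), ∃ s > (0 : ℝ), ∀ i : Fin k, Alt x c m (hF x (c i, 1)) C s := by
  have h : ∀ i : Fin k, ∃ C > (0 : ℝ), ∃ s > (0 : ℝ), Alt x c m (hF x (c i, 1)) C s := fun i =>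
    alt_exists hCHO x hd hx hfac hinf _ fun h => pt_ne _ (hx _ h)
  choose C hC s hs h using h
  obtain ⟨t, ht, hts⟩ := fin_min (Finset.univ : Finset (Fin k)) s 0 fun i _ => hs i
  obtain ⟨b, hb, hbs⟩ := fin_min (Finset.univ : Finset (Fin k)) (fun i => (C i)⁻¹) 0
    fun i _ => inv_pos.2 (hC i)
  refine ⟨b⁻¹, inv_pos.2 hb, t, ht, fun i => (h i).mono ?_ (hts i (Finset.mem_univ _))⟩
  exact (le_inv_comm₀ hb (hC i)).1 (hbs i (Finset.mem_univ _))

/-! ### Charts -/

theorem iot_ne (τ : Bool) (w : ℂ) : iot τ w ≠ 0 := by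
  cases τ
  · intro h
    exact one_ne_zero (congrArg Prod.fst h)
  · intro h
    exact one_ne_zero (congrArg Prod.snd h)

theorem iot_diff (τ : Bool) : Differentiable ℂ (iot τ) := by
  cases τ
  · show Differentiable ℂ fun z : ℂ => ((1, z) : ℂ × ℂ)
    exact (differentiable_const 1).prodMk differentiable_id
  · show Differentiable ℂ fun z : ℂ => ((z, 1) : ℂ × ℂ)
    exact differentiable_id.prodMk (differentiable_const 1)

theorem cr_iot (τ : Bool) (w w₂ : ℂ) : ‖cr (iot τ w) (iot τ w₂)‖ = ‖w - w₂‖ := by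
  cases τ
  · show ‖(1 : ℂ) * w₂ - w * 1‖ = _
    rw [one_mul, mul_one, norm_sub_rev]
  · show ‖w * (1 : ℂ) - 1 * w₂‖ = _
    rw [one_mul, mul_one]

theorem N2_iot (τ : Bool) (w : ℂ) : 1 ≤ N2 (iot τ w) := by
  have h := sq_nonneg ‖w‖
  cases τ
  · show 1 ≤ ‖(1 : ℂ)‖ ^ 2 + ‖w‖ ^ 2
    rw [norm_one]
    linarith
  · show 1 ≤ ‖w‖ ^ 2 + ‖(1 : ℂ)‖ ^ 2
    rw [norm_one]
    linarith

theorem cho_iot (τ : Bool) (w w₂ : ℂ) : cho (iot τ w) (iot τ w₂) ≤ ‖w - w₂‖ := by
  unfold cho
  rw [cr_iot]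
  refine div_le_self (norm_nonneg _) ?_
  rw [Real.one_le_sqrt]
  have h1 := N2_iot τ w
  have h2 := N2_iot τ w₂
  nlinarith

theorem iot_inj (τ : Bool) {w w₂ : ℂ} (h : cr (iot τ w) (iot τ w₂) = 0) : w = w₂ := by
  have h1 := cr_iot τ w w₂
  rw [h, norm_zero] at h1
  exact sub_eq_zero.1 (norm_eq_zero.1 h1.symm)

/-- the speed of a map parallel to a chart -/
theorem spd_iot {F : ℂ → ℂ × ℂ} (τ : Bool) {y : ℂ} {r : ℝ} (hF : DifferentiableOn ℂ F (ball y r))
    (h0 : ∀ w ∈ ball y r, F w ≠ 0 ∧ cr (F w) (iot τ w) = 0) {u : ℂ} (hu : u ∈ ball y r) :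
    spd F u ≤ 1 := by
  cases τ
  swap
  · exact Pool.Agent.H734.HY211.spd_le hF h0 hu
  have hd : DifferentiableAt ℂ F u := hF.differentiableAt (isOpen_ball.mem_nhds hu)
  have h1 : HasDerivAt (fun w => (F w).1) (deriv F u).1 u :=
    (hasFDerivAt_fst (𝕜 := ℂ) (E := ℂ) (F := ℂ) (p := F u)).comp_hasDerivAt u hd.hasDerivAt
  have h2 : HasDerivAt (fun w => (F w).2) (deriv F u).2 u :=
    (hasFDerivAt_snd (𝕜 := ℂ) (E := ℂ) (F := ℂ) (p := F u)).comp_hasDerivAt u hd.hasDerivAt
  have h3 : HasDerivAt (fun w => (F w).1 * w) ((deriv F u).1 * u + (F u).1 * 1) u :=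
    h1.mul (hasDerivAt_id u)
  have hpar : ∀ w, cr (F w) (iot false w) = 0 → (F w).2 = (F w).1 * w := by
    intro w hw
    have h5 : (F w).1 * w - (F w).2 * 1 = 0 := hw
    rw [mul_one] at h5
    exact (sub_eq_zero.1 h5).symm
  have h4 : (fun w => (F w).1 * w) =ᶠ[𝓝 u] (fun w => (F w).2) := by
    filter_upwards [isOpen_ball.mem_nhds hu] with w hw
    exact (hpar w (h0 w hw).2).symm
  have h5 : (deriv F u).2 = (deriv F u).1 * u + (F u).1 * 1 :=
    (h2.congr_of_eventuallyEq h4).unique h3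
  have h7 : (F u).2 = (F u).1 * u := hpar u (h0 u hu).2
  have h8 : cr (deriv F u) (F u) = -(F u).1 ^ 2 := by
    unfold cr
    rw [h5, h7]
    ring
  have hN := N2_pos (h0 u hu).1
  unfold spd
  rw [div_le_one hN, h8, norm_neg, norm_pow]
  unfold N2
  have := sq_nonneg ‖(F u).2‖
  linarith

theorem t_HITL (hCHO : S_CHO) (hLIFT : S_LIFT) (hOMIT : S_OMITJ) : S_HITL := by
  intro d k x c m hd hx hce hnrm hfac hleo
  have hCHO0 := hCHO
  obtain ⟨-, hcb, hcz, hcs, hall⟩ := hCHO
  obtain ⟨hspd, hsdn, -, -, -⟩ := hall d x hd hx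
  obtain ⟨C₁, hC₁, μ, hμ, hce'⟩ := uce x hd hx hce hsdn
  obtain ⟨C₂, hC₂, s₀, hs₀, hls⟩ := alt_all hCHO0 x hd hx hfac hnrm.1
  obtain ⟨δ₀, hδ₀, R₂, hR₂, hom⟩ := hOMIT d x hd hx hce hleo
  obtain ⟨C0, c0, KK⟩ := exists_KC
  have hce2 : ∀ (i : Fin k) (n : ℕ), C₁ * μ ^ n ≤ sdn x n (hF x (c i, 1)) := fun i n =>
    hce' (c i, 1) (pt_ne _) (crit_pt hfac i) n
  refine ⟨μ, hμ, C₁, hC₁, hce2, fun θ hθ1 hθμ => ?_⟩
  obtain ⟨T, A, G⟩ := exists_MG KK hθ1
  have hA : 0 < A := lt_of_lt_of_le one_pos G.A1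
  have hθ0 : 0 < θ := by linarith
  have hμ0 : 0 < μ := by linarith
  have hκ0 : 0 < θ / μ := by positivity
  have hκ1 : θ / μ < 1 := by rw [div_lt_one hμ0]; exact hθμ
  refine ⟨C₂ * (4 * A / δ₀), by positivity, min (R₂ / 2) (s₀ * C₁ * δ₀ / (8 * A)),
    by positivity, ?_⟩
  intro R hR hRR n τ y z hz hzy
  have hR2 : 2 * R ≤ R₂ := by
    have := hRR.trans (min_le_left _ _)
    linarith
  have hRs : 4 * A / δ₀ / C₁ * R < s₀ := by
    have h1 : R ≤ s₀ * C₁ * δ₀ / (8 * A) := hRR.trans (min_le_right _ _)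
    rw [le_div_iff₀ (by positivity)] at h1
    rw [div_div, div_mul_eq_mul_div, div_lt_iff₀ (by positivity)]
    have h2 : 0 < s₀ * C₁ * δ₀ := by positivity
    linarith
  set Hit : ℕ → Prop := fun j => ∃ i : Fin k,
    cho ((hF x)^[j] (hF x (c i, 1))) (iot τ y) ≤ 2 * R ∧
      cho ((hF x)^[n - 1 - j] z) (c i, 1) ^ (m i + 1) * sdn x j (hF x (c i, 1)) ≤
        C₂ * (4 * A / δ₀) * θ ^ j * R with hHit
  have key : ∀ j ≤ n, (∃ g, BrT x j τ y (RR R T j) g ∧ cr (g y) ((hF x)^[n - j] z) = 0) ∨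
      ∃ i < n, Hit i := by
    intro j
    induction j with
    | zero =>
      intro _
      refine Or.inl ⟨iot τ, ⟨?_, fun w _ => ⟨iot_ne τ w, ?_⟩⟩, ?_⟩
      · exact (iot_diff τ).differentiableOn
      · exact cr_self _
      · rw [cr_comm, Nat.sub_zero, hzy, neg_zero]
    | succ j ih =>
      intro hj
      rcases ih (by omega) with ⟨g, hg, hgw⟩ | hhit
      swap
      · exact Or.inr hhit
      have hsub : ball y (RR R T (j + 1)) ⊆ ball y (RR R T j) := G.RR_ball hR j y
      have hRRp : 0 < RR R T (j + 1) := G.RR_pos hR (j + 1)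
      have hw1 : y ∈ ball y (RR R T (j + 1)) := mem_ball_self hRRp
      have hb2 : ∀ k, ∀ w ∈ ball y (RR R T k), ‖w - y‖ < 2 * R := by
        intro k w hw
        rw [mem_ball, dist_eq_norm] at hw
        exact hw.trans_le (G.RR_le hR k)
      have hb3 : ∀ w ∈ ball y (RR R T j), w ∈ ball y R₂ := by
        intro w hw
        rw [mem_ball, dist_eq_norm]
        exact (hb2 j w hw).trans_le hR2
      -- the next point
      set z₁ : ℂ × ℂ := (hF x)^[n - 1 - j] z with hz₁
      have hz₁0 : z₁ ≠ 0 := hx.iter_ne _ hz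
      have hfz₁ : hF x z₁ = (hF x)^[n - j] z := by
        rw [hz₁, ← Function.iterate_succ_apply' (hF x), Nat.succ_eq_add_one,
          show n - 1 - j + 1 = n - j by omega]
      have hfz0 : hF x z₁ ≠ 0 := fun h => hz₁0 (hx _ h)
      have hgz : cr (g y) (hF x z₁) = 0 := by rw [hfz₁]; exact hgw
      -- extension by one step
      have hext : ∀ G' : ℂ → ℂ × ℂ, DifferentiableOn ℂ G' (ball y (RR R T (j + 1))) →
          (∀ w ∈ ball y (RR R T (j + 1)), G' w ≠ 0 ∧ cr (hF x (G' w)) (g w) = 0) →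
          BrT x (j + 1) τ y (RR R T (j + 1)) G' := by
        intro G' h1 h2
        refine ⟨h1, fun w hw => ⟨(h2 w hw).1, ?_⟩⟩
        rw [Function.iterate_succ_apply]
        have h3 : hF x (G' w) ≠ 0 := fun h => (h2 w hw).1 (hx _ h)
        have h4 := (hg.2 w (hsub hw)).1
        exact cr_trans (hx.iter_ne j h4) (cr_iter x j h3 h4 (h2 w hw).2) (hg.2 w (hsub hw)).2
      by_cases hcase : ∃ i : Fin k, ∃ u ∈ ball y (RR R T (j + 1)),
          cr (g u) (hF x (c i, 1)) = 0
      · obtain ⟨i, u, hu1, hgu⟩ := hcase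
        have huj : u ∈ ball y (RR R T j) := hsub hu1
        obtain ⟨v, hv⟩ : ∃ v : ℂ × ℂ, v = hF x (c i, 1) := ⟨_, rfl⟩
        have hgu : cr (g u) v = 0 := by rw [hv]; exact hgu
        have hv0 : v ≠ 0 := by rw [hv]; exact fun h => (pt_ne _) (hx _ h)
        obtain ⟨q, hq0, hqv, hq⟩ := hom j τ y v hv0
        have hgq : ∀ w ∈ ball y (RR R T j), cr (g w) q ≠ 0 := by
          intro w hw h
          obtain ⟨h1, h2⟩ := hg.2 w hw
          refine hq w (hb3 w hw) ?_
          have h3 : cr q (g w) = 0 := by rw [cr_comm, h, neg_zero]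
          exact cr_trans (hx.iter_ne j h1) (cr_iter x j hq0 h1 h3) h2
        have hqv0 : cr q v ≠ 0 := by
          intro h
          have h1 := (hcz q v hq0 hv0).2 h
          rw [h1] at hqv
          linarith
        set h : ℂ → ℂ := fun w => cr (g w) v / cr (g w) q with hh
        have hgd : ∀ w ∈ ball y (RR R T j), DifferentiableAt ℂ g w := fun w hw =>
          hg.1.differentiableAt (isOpen_ball.mem_nhds hw)
        have huniv : Univ h y (RR R T j) := by
          refine ⟨fun w hw => ?_, ?_⟩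
          · exact ((cr_deriv (hgd w hw) v).div (cr_deriv (hgd w hw) q)
              (hgq w hw)).differentiableAt.differentiableWithinAt
          · intro w hw w₂ hw₂ he
            have he' : cr (g w) v / cr (g w) q = cr (g w₂) v / cr (g w₂) q := he
            set t : ℂ := cr (g w) v / cr (g w) q with ht
            have e1 : cr (g w) v = t * cr (g w) q := by
              rw [ht, div_mul_cancel₀ _ (hgq w hw)]
            have e2 : cr (g w₂) v = t * cr (g w₂) q := by
              rw [he', div_mul_cancel₀ _ (hgq w₂ hw₂)]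
            set m : ℂ × ℂ := (v.1 - t * q.1, v.2 - t * q.2) with hm
            have e3 : cr (g w) m = 0 := by
              have : cr (g w) m = cr (g w) v - t * cr (g w) q := by
                rw [hm]
                unfold cr
                ring
              rw [this, e1, sub_self]
            have e4 : cr m (g w₂) = 0 := by
              have : cr m (g w₂) = -(cr (g w₂) v - t * cr (g w₂) q) := by
                rw [hm]
                unfold cr
                ring
              rw [this, e2, sub_self, neg_zero]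
            have e5 : m ≠ 0 := by
              intro h0
              apply hqv0
              have h1 : m.1 = 0 := by rw [h0]; rfl
              have h2 : m.2 = 0 := by rw [h0]; rfl
              have h3 : v.1 = t * q.1 := sub_eq_zero.1 h1
              have h4 : v.2 = t * q.2 := sub_eq_zero.1 h2
              unfold cr
              rw [h3, h4]
              ring
            have e6 : cr (g w) (g w₂) = 0 := cr_trans e5 e3 e4
            obtain ⟨a1, a2⟩ := hg.2 w hw
            obtain ⟨b1, b2⟩ := hg.2 w₂ hw₂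
            have e7 := cr_iter x j a1 b1 e6
            have a3 : cr (iot τ w) ((hF x)^[j] (g w)) = 0 := by rw [cr_comm, a2, neg_zero]
            have e8 : cr (iot τ w) (iot τ w₂) = 0 :=
              cr_trans (hx.iter_ne j a1) a3 (cr_trans (hx.iter_ne j b1) e7 b2)
            exact iot_inj τ e8
        -- the derivative
        have hgu0 := (hg.2 u huj).1
        have hder : ‖deriv h u‖ = spd g u * N2 v / ‖cr v q‖ :=
          coord_deriv (hgd u huj) hgu0 hv0 hgu (hgq u huj)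
        have hspd0 : 0 ≤ spd g u := by
          unfold spd
          have := (N2_pos hgu0).le
          positivity
        obtain ⟨D, hD⟩ : ∃ D : ℝ, D = sdn x j v := ⟨_, rfl⟩
        have hDl : C₁ * μ ^ j ≤ D := by rw [hD, hv]; exact hce2 i j
        have hμj : 0 < μ ^ j := by positivity
        have hD0 : 0 < D := lt_of_lt_of_le (by positivity) hDl
        have hsp1 : D * spd g u ≤ 1 := by
          have h1 := hspd g u j (hgd u huj) hgu0
          have h2 : spd (fun w => (hF x)^[j] (g w)) u ≤ 1 := by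
            refine spd_iot (y := y) (r := RR R T j) τ ?_ (fun w hw => ⟨?_, (hg.2 w hw).2⟩) huj
            · intro w hw
              have h3 : DifferentiableAt ℂ (fun q : CV d × (ℂ × ℂ) => (hF q.1)^[j] q.2) (x, g w) :=
                hF_iter_differentiable d j (x, g w)
              have h4 : DifferentiableAt ℂ (fun w => (x, g w)) w :=
                (differentiableAt_const x).prodMk (hgd w hw)
              exact (DifferentiableAt.comp w h3 h4).differentiableWithinAt
            · exact hx.iter_ne j (hg.2 w hw).1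
          rw [h1] at h2
          obtain ⟨a, ha, hav⟩ := (cr_eq_zero_iff hgu0 hv0).1 hgu
          rw [hav, hsdn j v a ha hv0] at h2
          rw [hD]
          exact h2
        have hup : ∀ w ∈ ball y (RR R T (j + 1)), cho (g w) v ≤ 4 * A / δ₀ * θ ^ j * R / D := by
          intro w hw
          have h1 := G.upper KK hR huniv hw hu1
          have h2 : h u = 0 := by
            rw [hh]
            change cr (g u) v / cr (g u) q = 0
            rw [hgu, zero_div]
          rw [h2, sub_zero, hder] at h1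
          have h3 : ‖w - u‖ ≤ 4 * R := by
            have h3 := hb2 _ w hw
            have h4 := hb2 _ u hu1
            calc ‖w - u‖ = ‖(w - y) - (u - y)‖ := by congr 1; ring
              _ ≤ ‖w - y‖ + ‖u - y‖ := norm_sub_le _ _
              _ ≤ 4 * R := by linarith
          have hgw0 := (hg.2 w (hsub hw)).1
          have h5 := cho_coord hgw0 hv0 hq0 (hgq w (hsub hw)) (hcb _ _).2.2
          have s2 : 0 < Real.sqrt (N2 v) := Real.sqrt_pos.2 (N2_pos hv0)
          have s3 : 0 < Real.sqrt (N2 q) := Real.sqrt_pos.2 (N2_pos hq0)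
          have hNv := N2_pos hv0
          have h6 : δ₀ * (Real.sqrt (N2 q) * Real.sqrt (N2 v)) ≤ ‖cr v q‖ := by
            have h7 : ‖cr v q‖ = ‖cr q v‖ := by rw [cr_comm, norm_neg]
            rw [h7, cho_norm hq0 hv0]
            exact mul_le_mul_of_nonneg_right hqv (by positivity)
          have hcr0 : 0 < ‖cr v q‖ := lt_of_lt_of_le (by positivity) h6
          -- the bound for the coordinate
          have h8 : spd g u * N2 v / ‖cr v q‖ * Real.sqrt (N2 q) ≤
              1 / δ₀ * spd g u * Real.sqrt (N2 v) := by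
            rw [div_mul_eq_mul_div, div_le_iff₀ hcr0]
            have h9 : N2 v = Real.sqrt (N2 v) * Real.sqrt (N2 v) :=
              (Real.mul_self_sqrt hNv.le).symm
            calc spd g u * N2 v * Real.sqrt (N2 q)
                = 1 / δ₀ * spd g u * Real.sqrt (N2 v) *
                    (δ₀ * (Real.sqrt (N2 q) * Real.sqrt (N2 v))) := by
                  nth_rewrite 1 [h9]
                  field_simp
              _ ≤ _ := mul_le_mul_of_nonneg_left h6 (by positivity)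
          have h10 : cho (g w) v * Real.sqrt (N2 v) ≤
              (4 * A / δ₀ * θ ^ j * R * spd g u) * Real.sqrt (N2 v) := by
            have hθj : 0 < θ ^ j := by positivity
            have hD0 : 0 ≤ spd g u * N2 v / ‖cr v q‖ := by positivity
            calc cho (g w) v * Real.sqrt (N2 v) ≤ ‖h w‖ * Real.sqrt (N2 q) := h5
              _ ≤ (A * θ ^ j * (spd g u * N2 v / ‖cr v q‖) * ‖w - u‖) * Real.sqrt (N2 q) :=
                  mul_le_mul_of_nonneg_right h1 s3.le
              _ ≤ (A * θ ^ j * (spd g u * N2 v / ‖cr v q‖) * (4 * R)) * Real.sqrt (N2 q) := by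
                  gcongr
              _ = A * θ ^ j * (4 * R) * (spd g u * N2 v / ‖cr v q‖ * Real.sqrt (N2 q)) := by ring
              _ ≤ A * θ ^ j * (4 * R) * (1 / δ₀ * spd g u * Real.sqrt (N2 v)) :=
                  mul_le_mul_of_nonneg_left h8 (by positivity)
              _ = _ := by ring
          have h11 : cho (g w) v ≤ 4 * A / δ₀ * θ ^ j * R * spd g u :=
            le_of_mul_le_mul_right h10 s2
          refine h11.trans ?_
          rw [le_div_iff₀ hD0]
          calc 4 * A / δ₀ * θ ^ j * R * spd g u * D = 4 * A / δ₀ * θ ^ j * R * (D * spd g u) := by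
                ring
            _ ≤ 4 * A / δ₀ * θ ^ j * R * 1 := mul_le_mul_of_nonneg_left hsp1 (by positivity)
            _ = _ := by rw [mul_one]
        have hsm : 4 * A / δ₀ * θ ^ j * R / D < s₀ := by
          refine lt_of_le_of_lt ?_ hRs
          rw [div_le_iff₀ hD0]
          have h1 : θ ^ j ≤ μ ^ j := pow_le_pow_left₀ hθ0.le hθμ.le j
          calc 4 * A / δ₀ * θ ^ j * R ≤ 4 * A / δ₀ * μ ^ j * R := by gcongr
            _ = 4 * A / δ₀ / C₁ * R * (C₁ * μ ^ j) := by field_simp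
            _ ≤ 4 * A / δ₀ / C₁ * R * D := mul_le_mul_of_nonneg_left hDl (by positivity)
        have hcho1 : cho (hF x z₁) v = cho (g y) v := by
          have hgy0 := (hg.2 y (hsub hw1)).1
          obtain ⟨a, ha, hav⟩ := (cr_eq_zero_iff hgy0 hfz0).1 hgz
          have h1 := hcs (hF x z₁) v a 1 ha one_ne_zero
          rw [one_smul] at h1
          rw [hav, h1]
        have hchob : cho (hF x z₁) v ≤ 4 * A / δ₀ * θ ^ j * R / D := by
          rw [hcho1]
          exact hup y hw1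
        have hls' := hls i
        rw [← hv] at hls'
        rcases hls' z₁ hz₁0 (hchob.trans_lt hsm) with ⟨i', hi', hb⟩ | hlift
        · right
          have hv'0 : hF x (c i', 1) ≠ 0 := fun h => (pt_ne _) (hx _ h)
          obtain ⟨a, ha, hav⟩ := (cr_eq_zero_iff hv'0 hv0).1 hi'
          refine ⟨j, by omega, i', ?_, ?_⟩
          · -- position
            have h1 : cr ((hF x)^[j] (hF x (c i', 1))) (iot τ u) = 0 := by
              have h2 : cr (hF x (c i', 1)) (g u) = 0 :=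
                cr_trans hv0 hi' (by rw [cr_comm, hgu, neg_zero])
              exact cr_trans (hx.iter_ne j hgu0) (cr_iter x j hv'0 hgu0 h2) (hg.2 u huj).2
            obtain ⟨b, hb', hbv⟩ := (cr_eq_zero_iff (hx.iter_ne j hv'0) (iot_ne τ u)).1 h1
            have h3 := hcs (iot τ u) (iot τ y) b 1 hb' one_ne_zero
            rw [one_smul] at h3
            rw [hbv, h3]
            exact (cho_iot τ u y).trans (hb2 _ u hu1).le
          · have h1 : sdn x j (hF x (c i', 1)) = D := by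
              rw [hav, hsdn j v a ha hv0, hD]
            rw [h1]
            calc cho z₁ (c i', 1) ^ (m i' + 1) * D ≤ C₂ * cho (hF x z₁) v * D :=
                  mul_le_mul_of_nonneg_right hb hD0.le
              _ ≤ C₂ * (4 * A / δ₀ * θ ^ j * R / D) * D := by gcongr
              _ = _ := by field_simp
        · left
          obtain ⟨G', hG'1, hG'2, hG'3⟩ := hlift g y (RR R T (j + 1)) hRRp (hg.1.mono hsub)
            (fun w hw => ⟨(hg.2 w (hsub hw)).1, (hup w hw).trans_lt hsm⟩) hgz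
          refine ⟨G', hext G' hG'1 hG'2, ?_⟩
          rw [show n - (j + 1) = n - 1 - j by omega]
          exact hG'3
      · -- no critical value
        left
        obtain ⟨G', hG'1, hG'2, hG'3⟩ := hLIFT d x hd hx g y (RR R T (j + 1)) hRRp
          (hg.1.mono hsub) (fun w hw => (hg.2 w (hsub hw)).1) (by
            intro w hw q hq0 hq hwr
            obtain ⟨i, a, ha, hqa⟩ := crit_dir x hd hfac hnrm.1 hq0 hwr
            refine hcase ⟨i, w, hw, ?_⟩
            rw [hqa, hF_smul, cr_smul_left] at hq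
            rw [cr_comm, (mul_eq_zero.1 hq).resolve_left (pow_ne_zero _ ha), neg_zero])
            z₁ hz₁0 (by rw [cr_comm, hgz, neg_zero])
        refine ⟨G', hext G' hG'1 hG'2, ?_⟩
        rw [show n - (j + 1) = n - 1 - j by omega]
        exact hG'3
  rcases key n le_rfl with ⟨g, hg, hgw⟩ | ⟨i, hi, hhit⟩
  · left
    have hsub : ball y R ⊆ ball y (RR R T n) := ball_subset_ball (G.RR_gt hR n).le
    refine ⟨g, ⟨hg.1.mono hsub, fun w hw => hg.2 w (hsub hw)⟩, ?_⟩
    rw [Nat.sub_self] at hgw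
    exact hgw
  · exact Or.inr ⟨i, hi, hhit⟩

end Pool.Agent.H221.HY211.HITL
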